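import Pool.Agent.P8H72.RE.Defs
import Pool.Agent.N52.ST.Stm
import Pool.Agent.N557.QW.Stm

/-!
# Project RE (helper72, after a plan of helper68): statements of the packages

MP_56a53b_an: relative embeddability over co-amenable subgroups fails. Every package is
self-contained; packages may not assume each other unless the docstring says so (then take the
statement as a hypothesis). Put the file at `Pool/Agent/P8H<you>/RE/<Part>.lean`, theorem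
`t_<PART> : S_<PART>` (with the allowed hypotheses).
-/

set_option autoImplicit false

open scoped Topology InnerProductSpace Kronecker ComplexOrder
open Filter Matrix

namespace Pool.Agent.P8H72.RE

open Pool.Agent.N557.QWX (Op tr IsTracial IsHom)
open Pool.Agent.N859.QX (QWEP)
open Pool.Agent.N557.QW (RF lam)
open Pool.Agent.H494R3.GT (L2 dl)
open Pool.Agent.W661.RC (hs HasT Le)
open Pool.Agent.N52.ST (S_FM)

noncomputable section

/-! ### Groups -/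

/-- GRP: a co-amenable pair. Take `Γ = (finitely supported functions ℤ → G) ⋊ ℤ` (shift),
`H = {(f, 0) : f k ∈ K for all k < 0}`, `j g = (g at the place -1, 0)`. Let `s` be the generator of `ℤ`;
the cosets `x_i = s^(-i) H` (or `s^i H`, depending on the sign of the shift) are fixed by any given
`(f, 0)` for all large `i`, and `s` moves `x_i` to `x_(i±1)`. The mean is the limit, along a
nonprincipal ultrafilter in `m`, of the averages of `f (x_i)` over `m ≤ i < 2 m`. `H` is residually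
finite since it embeds into the restricted direct product of copies of `G`. -/
def S_GRP : Prop :=
  ∀ (G : Type) [Group G] (K : Subgroup G), Countable G → RF G →
    ∃ (Γ : Type) (_ : Group Γ) (H : Subgroup Γ) (j : G →* Γ),
      Countable Γ ∧ CoAmenable H ∧ RF H ∧ ∀ g, j g ∈ H ↔ g ∈ K

/-! ### Matrix models of QWEP tracial von Neumann algebras -/

section models

variable {H K E : Type} [NormedAddCommGroup H] [InnerProductSpace ℂ H] [CompleteSpace H]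
  [NormedAddCommGroup K] [InnerProductSpace ℂ K] [CompleteSpace K]
  [NormedAddCommGroup E] [InnerProductSpace ℂ E] [CompleteSpace E]

/-- The unitary group of the von Neumann algebra `A`. -/
def UA (A : VonNeumannAlgebra H) : Subgroup (unitary (Op H)) where
  carrier := {u | (u : Op H) ∈ A}
  one_mem' := one_mem A
  mul_mem' := fun ha hb => mul_mem (S := VonNeumannAlgebra H) (s := A) ha hb
  inv_mem' := fun ha => star_mem (S := VonNeumannAlgebra H) (s := A) ha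

end models

/-- MTA: weighted matrix models. Adaptation of the library proof that a QWEP von Neumann algebra with
group-like unitaries gives a hyperlinear group: Pool.Agent.N286.QW.STATE (t_state), with the field
`orth` of `Dt` dropped and the last conclusion replaced by `φ (b g) = ⟪ξ, u g ξ⟫` (right
multiplications: Pool.Agent.N664.QWP.RT; `t_bim`: Pool.Agent.N833.QW.BIM), then
Pool.Agent.N163.QW.DAY (t_day, applied with the extra operators `b g - τ(g) • 1`), then the first part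
of Pool.Agent.N2.QW.Mat (t_mat) up to the construction of `T` and the unitaries. -/
def S_MTA : Prop :=
  ∀ (H : Type) [NormedAddCommGroup H] [InnerProductSpace ℂ H] [CompleteSpace H]
    (A : VonNeumannAlgebra H) (ξ : H), IsTracial A ξ → QWEP A →
    ∀ (F : Finset (UA A)) (ε : ℝ), 0 < ε →
    ∃ (n : ℕ) (φ : UA A → unitaryGroup (Fin n) ℂ) (T : Matrix (Fin n) (Fin n) ℂ),
      T.PosSemidef ∧ hs T = 1 ∧
      (∀ g ∈ F, hs ((φ g).1 * T - T * (φ g).1) ≤ ε) ∧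
      (∀ g ∈ F, ∀ h ∈ F, hs (((φ (g * h)).1 - (φ g).1 * (φ h).1) * T) ≤ ε) ∧
      ∀ g ∈ F, ‖trace (T * (φ g).1 * T) - tr ξ ((g : unitary (Op H)) : Op H)‖ ≤ ε

/-- MTB: from weights to the uniform weight, keeping the trace. Let `T = U diag(t) U*` and conjugate
the `φ i` by `U`. For a large integer `Q` let `m j = ⌊Q t_j²⌋` and let
`Y = {(j, a) : a < m j}`, so `Q - n ≤ |Y| ≤ Q` (as `∑ t_j² = 1`). Let `C i` be the compression of
`φ i ⊗ 1` to `Y`: entries `(φ i)_jk` if `a = b`. Then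
`Tr (1 - C* C) = ∑_{j,k} |φ_jk|² (m_k - m_j)^+ ≤ Q ∑ |φ_jk|² |t_j² - t_k²| + n
≤ Q ‖φT - Tφ‖₂ · 2 ‖T‖₂ + n`, so the unitary `W i` near `C i` (polar decomposition) satisfies
`hs (C i - W i) ≤ small * Q`; `hs ((C k - C i C j))` is at most
`2 hs((φ k - φ i φ j) ⊗ 1 restricted to Y) + small * Q`, where the first term is
`∑_{j,k} |(φ k - φ i φ j)_jk|² m_k ≤ Q hs ((φ k - φ i φ j) T)`, and
`Tr (C i) = ∑_j φ_jj m_j` is `Q Tr(φ T²)` up to `n`. Take `Q ≥ n / ε`. -/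
def S_MTB : Prop :=
  ∀ ε' : ℝ, 0 < ε' → ∃ ε : ℝ, 0 < ε ∧
    ∀ (n : ℕ) (I : Type) [Fintype I] (φ : I → unitaryGroup (Fin n) ℂ)
      (T : Matrix (Fin n) (Fin n) ℂ), T.PosSemidef → hs T = 1 →
      (∀ i, hs ((φ i).1 * T - T * (φ i).1) ≤ ε) →
      ∃ (m : ℕ) (W : I → unitaryGroup (Fin m) ℂ), 0 < m ∧
        (∀ i j k, hs (((φ k).1 - (φ i).1 * (φ j).1) * T) ≤ ε →
          hs ((W k).1 - (W i).1 * (W j).1) ≤ ε' * m) ∧
        ∀ i, ‖trace (W i).1 / m - trace (T * (φ i).1 * T)‖ ≤ ε'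

/-- The operator norm of `Z` is at most `√C`. -/
def Bd {X : Type} [Fintype X] (C : ℝ) (Z : Matrix X X ℂ) : Prop :=
  ∀ W : Matrix X X ℂ, hs (Z * W) ≤ C * hs W ∧ hs (W * Z) ≤ C * hs W

/-- Asymptotic trace preserving homomorphisms of the tracial von Neumann algebra `(A, ξ)` to matrix
algebras (only the values on `A` matter). -/
structure AsRep {H : Type} [NormedAddCommGroup H] [InnerProductSpace ℂ H] [CompleteSpace H]
    (A : VonNeumannAlgebra H) (ξ : H) where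
  I : Type
  F : Filter I
  ne : F.NeBot
  n : I → ℕ
  pos : ∀ i, 0 < n i
  Ψ : ∀ i, Op H → Matrix (Fin (n i)) (Fin (n i)) ℂ
  bdd : ∀ x ∈ A, ∃ C : ℝ, ∀ i, Bd C (Ψ i x)
  one : Tendsto (fun i => hs (Ψ i 1 - 1) / n i) F (𝓝 0)
  add : ∀ x ∈ A, ∀ y ∈ A, Tendsto (fun i => hs (Ψ i (x + y) - (Ψ i x + Ψ i y)) / n i) F (𝓝 0)
  smul : ∀ c : ℂ, ∀ x ∈ A, Tendsto (fun i => hs (Ψ i (c • x) - c • Ψ i x) / n i) F (𝓝 0)
  mul : ∀ x ∈ A, ∀ y ∈ A, Tendsto (fun i => hs (Ψ i (x * y) - Ψ i x * Ψ i y) / n i) F (𝓝 0)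
  star : ∀ x ∈ A, Tendsto (fun i => hs (Ψ i (star x) - (Ψ i x)ᴴ) / n i) F (𝓝 0)
  trace : ∀ x ∈ A, Tendsto (fun i => Matrix.trace (Ψ i x) / n i) F (𝓝 (tr ξ x))

/-- NET (may assume S_MTA and S_MTB): `I = Finset (UA A) × ℕ`, `F = atTop`; for `i = (F, k)` take the
matrices `W_i` on the finite set `F ∪ F F ∪ F⁻¹ ∪ {1} ...` from MTA and MTB with accuracy
`1 / (k + 1)`, so that asymptotically `W (g h) = W g W h`, `W 1 = 1`, `W g⁻¹ = (W g)*`, and the traces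
converge. Every `x ∈ A` is a linear combination of unitaries of `A`
(CStarAlgebra.exists_sum_four_unitary for the C*-algebra A); fix one, `x = ∑ c_j u_j`, and put
`Ψ_i x = ∑ c_j W_i u_j`. A relation `∑ c_j u_j = 0` gives
`hs (∑ c_j W_i u_j) / n_i = ∑ conj c_j c_k tr (W_j* W_k) → ‖∑ c_j u_j ξ‖² = 0`; hence asymptotic
linearity, multiplicativity and so on. -/
def S_NET : Prop :=
  ∀ (H : Type) [NormedAddCommGroup H] [InnerProductSpace ℂ H] [CompleteSpace H]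
    (A : VonNeumannAlgebra H) (ξ : H), IsTracial A ξ → QWEP A → Nonempty (AsRep A ξ)

/-- Systems of matrix units of type `⊕ M_(d l)` in `M_n` (the sum of the `e l a a` need not be `1`). -/
structure MU {n L : ℕ} {d : Fin L → ℕ}
    (e : ∀ l, Fin (d l) → Fin (d l) → Matrix (Fin n) (Fin n) ℂ) : Prop where
  mul : ∀ l a b c, e l a b * e l b c = e l a c
  zero : ∀ l a b b' c, b ≠ b' → e l a b * e l b' c = 0
  orth : ∀ l l' a b a' b', l ≠ l' → e l a b * e l' a' b' = 0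
  star : ∀ l a b, (e l a b)ᴴ = e l b a

/-- CYC: a finite group which spans `⊕ M_(d l)` and whose group algebra contains matrix units.
`𝒢 = ∏_l (ℤ/2 wr ℤ/(d l))`, generated by commuting involutions `s^l_a` (`a : Fin (d l)`, in the
standard representation `ρ` the diagonal matrix of block `l` with `-1` at the place `a`) and `c_l` of
order `d l` (the cyclic shift in block `l`, `c_l s^l_a c_l⁻¹ = s^l_(a+1)`, trivial on the other
blocks). With `f^l_a = (1 - s^l_a) / 2` put `e^l_aa = f^l_a ∏_{(l',b) ≠ (l,a)} (1 - f^l'_b)` and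
`e^l_ab = c_l^(a-b) e^l_bb`. In every unitary representation these are matrix units. -/
def S_CYC : Prop :=
  ∀ (L : ℕ) (d : Fin L → ℕ), ∃ (𝒢 : Type) (_ : Group 𝒢) (_ : Fintype 𝒢)
    (ρ : 𝒢 →* unitary (∀ l, Matrix (Fin (d l)) (Fin (d l)) ℂ))
    (c : ∀ l, Fin (d l) → Fin (d l) → 𝒢 → ℂ),
    (∀ l a b, ∑ g, c l a b g • (ρ g : ∀ l, Matrix (Fin (d l)) (Fin (d l)) ℂ) =
      Pi.single l (Matrix.single a b 1)) ∧
    ∀ (n : ℕ) (ψ : 𝒢 →* unitaryGroup (Fin n) ℂ),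
      MU fun l a b => ∑ g, c l a b g • (ψ g : Matrix (Fin n) (Fin n) ℂ)

/-- EXN (may assume S_NET and S_CYC): asymptotic homomorphisms with exact matrix units for a given
finite-dimensional subalgebra. With `𝒢, ρ, c` from CYC, `φ_i g = ` the unitary part of
`Ψ_i (ι (ρ g))` is an almost representation of the finite group `𝒢` on `ℂ^(n i)`;
Pool.Agent.N225.AS.hs_step (almost representations of finite groups are close to representations on
the same space) gives representations `ψ_i`, and `e_i l a b = ∑ c l a b g • ψ_i g`. (A matrix `P` with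
`hs (P* P - 1)` small is close to a unitary: polar decomposition, `hs (P - U) ≤ hs (P* P - 1)`.) -/
def S_EXN : Prop :=
  ∀ (H : Type) [NormedAddCommGroup H] [InnerProductSpace ℂ H] [CompleteSpace H]
    (A : VonNeumannAlgebra H) (ξ : H), IsTracial A ξ → QWEP A →
    ∀ (L : ℕ) (d : Fin L → ℕ) (ι : (∀ l, Matrix (Fin (d l)) (Fin (d l)) ℂ) →⋆ₐ[ℂ] Op H),
      (∀ z, ι z ∈ A) →
      ∃ (R : AsRep A ξ) (e : ∀ (i : R.I) (l : Fin L), Fin (d l) → Fin (d l) →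
          Matrix (Fin (R.n i)) (Fin (R.n i)) ℂ), (∀ i, MU (e i)) ∧
        ∀ l a b, Tendsto (fun i => hs (e i l a b -
          R.Ψ i (ι (Pi.single l (Matrix.single a b 1)))) / R.n i) R.F (𝓝 0)

/-! ### Tensor products -/

section tensor

variable {H K E : Type} [NormedAddCommGroup H] [InnerProductSpace ℂ H] [CompleteSpace H]
  [NormedAddCommGroup K] [InnerProductSpace ℂ K] [CompleteSpace K]
  [NormedAddCommGroup E] [InnerProductSpace ℂ E] [CompleteSpace E]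
  {A : VonNeumannAlgebra H} {ξ : H} {N : VonNeumannAlgebra K} {ζ : K}

/-- The matrices of a finite sum of elementary tensors. -/
def tm (R₁ : AsRep A ξ) (R₂ : AsRep N ζ) {r : ℕ} (α : Fin r → Op H) (β : Fin r → Op K)
    (p : R₁.I × R₂.I) :
    Matrix (Fin (R₁.n p.1) × Fin (R₂.n p.2)) (Fin (R₁.n p.1) × Fin (R₂.n p.2)) ℂ :=
  ∑ s, R₁.Ψ p.1 (α s) ⊗ₖ R₂.Ψ p.2 (β s)

/-- The bounded family `Z` of matrices represents the element `z` of the algebraic tensor product. -/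
structure TRep (R₁ : AsRep A ξ) (R₂ : AsRep N ζ) (a : Op H → Op E) (b : Op K → Op E) (z : Op E)
    (Z : ∀ p : R₁.I × R₂.I,
      Matrix (Fin (R₁.n p.1) × Fin (R₂.n p.2)) (Fin (R₁.n p.1) × Fin (R₂.n p.2)) ℂ) : Prop where
  ex : ∃ (r : ℕ) (α : Fin r → Op H) (β : Fin r → Op K), (∀ s, α s ∈ A) ∧ (∀ s, β s ∈ N) ∧
    z = ∑ s, a (α s) * b (β s) ∧
    Tendsto (fun p => hs (Z p - tm R₁ R₂ α β p) / ((R₁.n p.1 : ℝ) * R₂.n p.2)) (R₁.F ×ˢ R₂.F) (𝓝 0)
  bdd : ∃ C : ℝ, ∀ p, Bd C (Z p)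

end tensor

/-- TEN: calculus of `TRep`. -/
def S_TEN : Prop :=
  ∀ (H K E : Type) [NormedAddCommGroup H] [InnerProductSpace ℂ H] [CompleteSpace H]
    [NormedAddCommGroup K] [InnerProductSpace ℂ K] [CompleteSpace K]
    [NormedAddCommGroup E] [InnerProductSpace ℂ E] [CompleteSpace E]
    (A : VonNeumannAlgebra H) (ξ : H) (N : VonNeumannAlgebra K) (ζ : K) (T : VonNeumannAlgebra E)
    (η : E) (a : Op H → Op E) (b : Op K → Op E), IsTracial A ξ → IsTracial N ζ →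
    IsTensor A ξ N ζ T η a b →
    ∀ (R₁ : AsRep A ξ) (R₂ : AsRep N ζ),
      (∀ (r : ℕ) (α : Fin r → Op H) (β : Fin r → Op K), (∀ s, α s ∈ A) → (∀ s, β s ∈ N) →
        TRep R₁ R₂ a b (∑ s, a (α s) * b (β s)) (tm R₁ R₂ α β)) ∧
      TRep R₁ R₂ a b 1 (fun _ => 1) ∧
      (∀ z Z w W, TRep R₁ R₂ a b z Z → TRep R₁ R₂ a b w W →
        TRep R₁ R₂ a b (z * w) (fun p => Z p * W p) ∧
        TRep R₁ R₂ a b (z + w) (fun p => Z p + W p) ∧
        TRep R₁ R₂ a b (z - w) (fun p => Z p - W p)) ∧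
      ∀ z Z, TRep R₁ R₂ a b z Z →
        TRep R₁ R₂ a b (star z) (fun p => (Z p)ᴴ) ∧
        Tendsto (fun p => Matrix.trace (Z p) / ((R₁.n p.1 : ℂ) * R₂.n p.2)) (R₁.F ×ˢ R₂.F)
          (𝓝 (tr η z)) ∧
        Tendsto (fun p => hs (Z p) / ((R₁.n p.1 : ℝ) * R₂.n p.2)) (R₁.F ×ˢ R₂.F)
          (𝓝 (‖z η‖ ^ 2))

/-- Partial trace over the first factor. -/
def ptr {n m : ℕ} (X : Matrix (Fin n × Fin m) (Fin n × Fin m) ℂ) : Matrix (Fin m) (Fin m) ℂ :=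
  fun i j => ∑ k, X (k, i) (k, j)

/-- The element `∑ e^l_ab ⊗ μ^l_ab`. -/
def kr {n m L : ℕ} {d : Fin L → ℕ} (e : ∀ l, Fin (d l) → Fin (d l) → Matrix (Fin n) (Fin n) ℂ)
    (μ : ∀ l, Fin (d l) → Fin (d l) → Matrix (Fin m) (Fin m) ℂ) :
    Matrix (Fin n × Fin m) (Fin n × Fin m) ℂ :=
  ∑ l, ∑ a, ∑ b, e l a b ⊗ₖ μ l a b

/-- CS: Cauchy-Schwarz. `Tr ((e_ab ⊗ μ_ab)* X) = Tr (μ_ab* ptr ((e_ab* ⊗ 1) X))` and
`hs (kr e μ) = ∑ Tr (e l a a) hs (μ l a b)`. -/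
def S_CS : Prop :=
  ∀ (n m L : ℕ) (d : Fin L → ℕ) (e : ∀ l, Fin (d l) → Fin (d l) → Matrix (Fin n) (Fin n) ℂ), MU e →
    (∀ l a, 0 < (Matrix.trace (e l a a)).re) →
    ∀ (X : Matrix (Fin n × Fin m) (Fin n × Fin m) ℂ)
      (μ : ∀ l, Fin (d l) → Fin (d l) → Matrix (Fin m) (Fin m) ℂ),
      ‖Matrix.trace ((kr e μ)ᴴ * X)‖ ^ 2 ≤ hs (kr e μ) *
        ∑ l, ∑ a, ∑ b, hs (ptr (((e l a b)ᴴ ⊗ₖ (1 : Matrix (Fin m) (Fin m) ℂ)) * X)) /
          (Matrix.trace (e l a a)).re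

/-- The matrix unit of `⊕ M_(d l)`. -/
def mE {L : ℕ} (d : Fin L → ℕ) (l : Fin L) (p q : Fin (d l)) :
    ∀ l, Matrix (Fin (d l)) (Fin (d l)) ℂ :=
  Pi.single l (Matrix.single p q 1)

section te

variable {H K E : Type} [NormedAddCommGroup H] [InnerProductSpace ℂ H] [CompleteSpace H]
  [NormedAddCommGroup K] [InnerProductSpace ℂ K] [CompleteSpace K]
  [NormedAddCommGroup E] [InnerProductSpace ℂ E] [CompleteSpace E]

/-- The element `∑ a (ι e^l_pq) b (κ^l_pq)`. -/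
def te {L : ℕ} {d : Fin L → ℕ} (a : Op H → Op E) (b : Op K → Op E)
    (ι : (∀ l, Matrix (Fin (d l)) (Fin (d l)) ℂ) →⋆ₐ[ℂ] Op H)
    (κ : ∀ l, Fin (d l) → Fin (d l) → Op K) : Op E :=
  ∑ l, ∑ p, ∑ q, a (ι (mE d l p q)) * b (κ l p q)

end te

/-- TSQ: the same for operators. Put `g^l_pq = ∑_s τ((ι e_pq)* α_s) β_s`, `t_l = τ(ι e^l_pp)` (which
does not depend on `p`, and is positive since `ι` is injective and the trace faithful), and use the
hypothesis for `κ^l_pq = g^l_pq / t_l`: the inner product is `Σ = ∑ ‖g^l_pq ζ‖² / t_l` and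
`‖y η‖² = Σ`. -/
def S_TSQ : Prop :=
  ∀ (H K E : Type) [NormedAddCommGroup H] [InnerProductSpace ℂ H] [CompleteSpace H]
    [NormedAddCommGroup K] [InnerProductSpace ℂ K] [CompleteSpace K]
    [NormedAddCommGroup E] [InnerProductSpace ℂ E] [CompleteSpace E]
    (A : VonNeumannAlgebra H) (ξ : H) (N : VonNeumannAlgebra K) (ζ : K) (T : VonNeumannAlgebra E)
    (η : E) (a : Op H → Op E) (b : Op K → Op E), IsTracial A ξ → IsTracial N ζ →
    IsTensor A ξ N ζ T η a b →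
    ∀ (L : ℕ) (d : Fin L → ℕ) (ι : (∀ l, Matrix (Fin (d l)) (Fin (d l)) ℂ) →⋆ₐ[ℂ] Op H),
      Function.Injective ι → (∀ z, ι z ∈ A) →
      (∀ l p, 0 < (tr ξ (ι (mE d l p p))).re) ∧
      ∀ (r : ℕ) (α : Fin r → Op H) (β : Fin r → Op K) (ε : ℝ), (∀ s, α s ∈ A) → (∀ s, β s ∈ N) →
        0 ≤ ε →
        (∀ κ : (∀ l, Fin (d l) → Fin (d l) → Op K), (∀ l p q, κ l p q ∈ N) →
          ‖⟪te a b ι κ η, (∑ s, a (α s) * b (β s)) η⟫_ℂ‖ ≤ ε * ‖te a b ι κ η‖) →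
        ∑ l, ∑ p, ∑ q, ‖(∑ s, tr ξ (star (ι (mE d l p q)) * α s) • β s) ζ‖ ^ 2 /
          (tr ξ (ι (mE d l p p))).re ≤ ε ^ 2

/-! ### The three levels -/

/-- The value of a word. -/
def ev {R : Type} [Monoid R] [Star R] {n : ℕ} (P : Fin n → R) (w : List (Fin n × Bool)) : R :=
  (w.map fun s => if s.2 = true then P s.1 else star (P s.1)).prod

/-- Level 1: operators in `T = A ⊗ N`. -/
def Lv1 {n : ℕ} (C ε : ℝ) (R S : Finset (FreeGroup (Fin n))) (x : FreeGroup (Fin n)) : Prop :=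
  ∃ (K : Type) (_ : NormedAddCommGroup K) (_ : InnerProductSpace ℂ K) (_ : CompleteSpace K)
    (N : VonNeumannAlgebra K) (ζ : K) (lv : Level N ζ) (V : Fin n → Op lv.E),
    IsTracial N ζ ∧ QWEP N ∧ (∀ i, V i ∈ lv.T) ∧ (∀ i, ‖V i‖ ≤ C) ∧
    (∀ i, ‖(star (V i) * V i - 1) lv.η‖ ≤ ε) ∧
    (∀ w ∈ R, ‖(ev V w.toWord - 1) lv.η‖ ≤ ε) ∧
    (∀ w ∈ S, ∃ y ∈ lv.S, ‖(ev V w.toWord - y) lv.η‖ ≤ ε) ∧
    ∀ y ∈ lv.S, ‖⟪y lv.η, ev V x.toWord lv.η⟫_ℂ‖ ≤ ε * ‖y lv.η‖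

/-- Level 2: finite sums of elementary tensors and a finite-dimensional subalgebra. -/
def Lv2 {n : ℕ} (C ε : ℝ) (R S : Finset (FreeGroup (Fin n))) (x : FreeGroup (Fin n)) : Prop :=
  ∃ (K : Type) (_ : NormedAddCommGroup K) (_ : InnerProductSpace ℂ K) (_ : CompleteSpace K)
    (N : VonNeumannAlgebra K) (ζ : K) (lv : Level N ζ) (r : Fin n → ℕ)
    (α : ∀ i, Fin (r i) → Op lv.H) (β : ∀ i, Fin (r i) → Op K) (P : Fin n → Op lv.E)
    (L : ℕ) (d : Fin L → ℕ) (ι : (∀ l, Matrix (Fin (d l)) (Fin (d l)) ℂ) →⋆ₐ[ℂ] Op lv.H),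
    IsTracial N ζ ∧ QWEP N ∧ (∀ i s, α i s ∈ lv.A) ∧ (∀ i s, β i s ∈ N) ∧
    (∀ i, P i = ∑ s, lv.a (α i s) * lv.b (β i s)) ∧
    Function.Injective ι ∧ (∀ z, ι z ∈ lv.A) ∧
    (∀ i, ‖P i‖ ≤ C) ∧
    (∀ i, ‖(star (P i) * P i - 1) lv.η‖ ≤ ε) ∧
    (∀ w ∈ R, ‖(ev P w.toWord - 1) lv.η‖ ≤ ε) ∧
    (∀ w ∈ S, ∃ κ : (∀ l, Fin (d l) → Fin (d l) → Op K), (∀ l p q, κ l p q ∈ N) ∧
      ‖(ev P w.toWord - te lv.a lv.b ι κ) lv.η‖ ≤ ε) ∧
    ∀ κ : (∀ l, Fin (d l) → Fin (d l) → Op K), (∀ l p q, κ l p q ∈ N) →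
      ‖⟪te lv.a lv.b ι κ lv.η, ev P x.toWord lv.η⟫_ℂ‖ ≤ ε * ‖te lv.a lv.b ι κ lv.η‖

/-- Level 3: matrices. -/
def Lv3 {n : ℕ} (C ε : ℝ) (R S : Finset (FreeGroup (Fin n))) (x : FreeGroup (Fin n)) : Prop :=
  ∃ (N m : ℕ) (P : Fin n → Matrix (Fin N × Fin m) (Fin N × Fin m) ℂ) (L : ℕ) (d : Fin L → ℕ)
    (e : ∀ l, Fin (d l) → Fin (d l) → Matrix (Fin N) (Fin N) ℂ), 0 < N ∧ 0 < m ∧ MU e ∧
    (∀ w, (w ∈ R ∨ w ∈ S ∨ w = x) → ∀ k, hs (ev P (w.toWord.drop k)) ≤ C * (N * m)) ∧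
    (∀ i, hs ((P i)ᴴ * P i - 1) ≤ ε * (N * m)) ∧
    (∀ w ∈ R, hs (ev P w.toWord - 1) ≤ ε * (N * m)) ∧
    (∀ w ∈ S, ∃ κ, hs (ev P w.toWord - kr e κ) ≤ ε * (N * m)) ∧
    (∀ μ, ‖Matrix.trace ((kr e μ)ᴴ * ev P x.toWord)‖ ^ 2 ≤ ε * hs (kr e μ) * (N * m)) ∧
    hs (1 - ∑ l, ∑ a, e l a a) ≤ ε * N

/-- EXTR: from the data of relative embeddability to level 1. `V i = π (lam (j (γ (of i)))) k` for a
suitable `k`; `C` is the maximum of the bounds of the sequences. For every word `w` the sequences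
`ev V w` and `π (lam (j (γ w)))` have the same class (by induction from `mul`, `star`, `one`). For
`g ∉ H`, `IsExp N (dl 1) (lam g) 0`, because `⟪y (dl 1), lam g (dl 1)⟫ = conj (cf y g) = 0` for `y` in `N`
(`N ≤ LK H`, Pool.Agent.N31.QWP.LKM or directly: `LK H` is a von Neumann algebra which contains
`lam h`, `h ∈ H`, and `cf y g = 0` for `y ∈ LK H`, `g ∉ H`). Note `π 0 k → 0` in 2-norm (`smul`). -/
def S_EXTR : Prop :=
  ∀ (G Γ : Type) [Group G] [Group Γ] (K : Subgroup G) (H : Subgroup Γ) (j : G →* Γ) (n : ℕ)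
    (γ : FreeGroup (Fin n) →* G), (∀ g, j g ∈ H ↔ g ∈ K) →
    ∀ M N : VonNeumannAlgebra (L2 Γ), GeneratedBy M (Set.range lam) →
      GeneratedBy N {z | ∃ h ∈ H, z = lam h} →
      ∀ (K₁ : Type) [NormedAddCommGroup K₁] [InnerProductSpace ℂ K₁] [CompleteSpace K₁]
        (N₁ : VonNeumannAlgebra K₁) (ζ : K₁), IsTracial N₁ ζ → QWEP N₁ →
        IsRE M N (dl (1 : Γ)) N₁ ζ →
        ∃ C : ℝ, ∀ ε : ℝ, 0 < ε → ∀ (R S : Finset (FreeGroup (Fin n))) (x : FreeGroup (Fin n)),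
          (∀ w ∈ R, γ w = 1) → (∀ w ∈ S, γ w ∈ K) → γ x ∉ K → Lv1 C ε R S x

/-- KAP: bounded approximation by sums of elementary tensors. Let `𝒜` be the norm closure of the
`*`-algebra of the sums `∑ a (α s) * b (β s)` (a unital C*-algebra of operators); `S` is its double
commutant. Kaplansky's theorem H770R2.Kad.prove_kap (Pool/Agent/H770R2/Kad/Kap2.lean), applied to
the inclusion of `𝒜` and the real and imaginary parts of `X`, gives an element of `𝒜` of norm at most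
`2 ‖X‖` close to `X` on `η`; approximate it in norm by a finite sum. -/
def S_KAP : Prop :=
  ∀ (H K E : Type) [NormedAddCommGroup H] [InnerProductSpace ℂ H] [CompleteSpace H]
    [NormedAddCommGroup K] [InnerProductSpace ℂ K] [CompleteSpace K]
    [NormedAddCommGroup E] [InnerProductSpace ℂ E] [CompleteSpace E]
    (B : VonNeumannAlgebra H) (N : VonNeumannAlgebra K) (S : VonNeumannAlgebra E)
    (a : Op H → Op E) (b : Op K → Op E), IsHom B S a → IsHom N S b →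
    (∀ x ∈ B, ∀ y ∈ N, a x * b y = b y * a x) →
    GeneratedBy S ({z | ∃ x ∈ B, z = a x} ∪ {z | ∃ y ∈ N, z = b y}) →
    ∀ X ∈ S, ∀ (η : E) (ε : ℝ), 0 < ε →
      ∃ (r : ℕ) (α : Fin r → Op H) (β : Fin r → Op K), (∀ s, α s ∈ B) ∧ (∀ s, β s ∈ N) ∧
        ‖∑ s, a (α s) * b (β s)‖ ≤ 2 * ‖X‖ + 1 ∧ ‖(X - ∑ s, a (α s) * b (β s)) η‖ ≤ ε

/-- MID (may assume S_KAP): from level 1 to level 2. `P i` approximates `V i` by KAP in `T`, with
`‖P i‖ ≤ 2 C + 1`; words: `‖x (P - V) y η‖ ≤ ‖x‖ ‖y‖ ‖(P - V) η‖` in a tracial algebra. For `w ∈ S`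
approximate `y ∈ lv.S` by KAP in `lv.S` (with `B`), then the finitely many elements of `B` which occur
by elements of one finite-dimensional algebra (hyperfiniteness), and
`‖a (x - x') b (y) η‖ = ‖b y a (x - x') η‖ ≤ ‖b y‖ ‖(x - x') ξ‖`; expand `x' = ι z` in matrix units. The
last condition passes from `V` to `P` because `te lv.a lv.b ι κ ∈ lv.S` (here `ι z ∈ B`). -/
def S_MID : Prop :=
  ∀ (n : ℕ) (R S : Finset (FreeGroup (Fin n))) (x : FreeGroup (Fin n)) (C : ℝ), ∃ C' : ℝ,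
    ∀ ε : ℝ, 0 < ε → ∃ ε₁ : ℝ, 0 < ε₁ ∧ (Lv1 C ε₁ R S x → Lv2 C' ε R S x)

/-- MODEL (may assume S_EXN, S_NET, S_TEN, S_CS, S_TSQ): from level 2 to level 3. -/
def S_MODEL : Prop :=
  ∀ (n : ℕ) (R S : Finset (FreeGroup (Fin n))) (x : FreeGroup (Fin n)) (C : ℝ), ∃ C' : ℝ,
    ∀ ε : ℝ, 0 < ε → ∃ ε₁ : ℝ, 0 < ε₁ ∧ (Lv2 C ε₁ R S x → Lv3 C' ε R S x)

/-! ### The matrix level -/

/-- DIX: averaging over the unitaries in the commutant of the matrix units. Here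
`z₀ = 1 - ∑ e l a a`. Proof: let `𝒴` be the group of the unitary `Y` which commute with all
`e l a b`, and `Z` the element of minimal `hs` in the closed convex hull of the
`(Y ⊗ 1) X (Y ⊗ 1)*` (finite dimension). By uniqueness `Z` commutes with `Y ⊗ 1`, `Y ∈ 𝒴`. In particular
with `z₀ ⊗ 1` (`Y = 1 - 2 z₀`) and with `p_v ⊗ 1` for the projections
`p_v = ∑_a e_{a b} |v⟩⟨v| e_{b a}` (`v` a unit vector in the range of `e^l_{bb}`, `Y = 1 - 2 p_v`), hence, by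
polarization, with `∑_a e_{ab} |v⟩⟨w| e_{ba}`, `v, w` in the range of `e^l_{bb}`. It follows that
`e_{bp} Z e_{qb} = e^l_{bb} ⊗ μ^l_{pq}` and `e^l_{bp} Z e^{l'}_{qb'} = 0` for `l ≠ l'`. (Or: average
explicitly over signed cyclic permutations of orthonormal bases.) -/
def S_DIX : Prop :=
  ∀ (n m L : ℕ) (d : Fin L → ℕ) (e : ∀ l, Fin (d l) → Fin (d l) → Matrix (Fin n) (Fin n) ℂ), MU e →
    ∀ (X : unitaryGroup (Fin n × Fin m) ℂ) (c : ℝ),
      (∀ Y : unitaryGroup (Fin n) ℂ,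
        (∀ l a b, (Y : Matrix (Fin n) (Fin n) ℂ) * e l a b = e l a b * Y) →
        c ≤ (Matrix.trace ((((Y : Matrix (Fin n) (Fin n) ℂ) ⊗ₖ (1 : Matrix (Fin m) (Fin m) ℂ)) *
          (X : Matrix (Fin n × Fin m) (Fin n × Fin m) ℂ)) *
          ((Y : Matrix (Fin n) (Fin n) ℂ) ⊗ₖ (1 : Matrix (Fin m) (Fin m) ℂ))ᴴ *
          (X : Matrix (Fin n × Fin m) (Fin n × Fin m) ℂ)ᴴ)).re) →
      ∃ (Z₀ : Matrix (Fin n × Fin m) (Fin n × Fin m) ℂ)
        (μ : ∀ l, Fin (d l) → Fin (d l) → Matrix (Fin m) (Fin m) ℂ),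
        Z₀ = ((1 - ∑ l, ∑ a, e l a a) ⊗ₖ (1 : Matrix (Fin m) (Fin m) ℂ)) * Z₀ ∧
        hs Z₀ + hs (kr e μ) ≤ n * m ∧ Bd 1 (Z₀ + kr e μ) ∧
        c ≤ (Matrix.trace ((Z₀ + kr e μ) * (X : Matrix (Fin n × Fin m) (Fin n × Fin m) ℂ)ᴴ)).re

/-- POL: polar decomposition, `P = U |P|`, `| |P| - 1 | ≤ | P*P - 1 |`. -/
def S_POL : Prop :=
  ∀ (X : Type) [Fintype X] [DecidableEq X] (P : Matrix X X ℂ),
    ∃ U : unitaryGroup X ℂ, hs (P - U.1) ≤ hs (Pᴴ * P - 1)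

/-- TEL: telescoping,
`∏ U_j - ∏ P_j = ∑_k (∏_{j<k} U_j) (U_k - P_k) (∏_{j>k} P_j)` and Cauchy-Schwarz. -/
def S_TEL : Prop :=
  ∀ (X : Type) [Fintype X] [DecidableEq X] (n : ℕ) (U : Fin n → unitaryGroup X ℂ)
    (P : Fin n → Matrix X X ℂ) (w : List (Fin n × Bool)) (Z : Matrix X X ℂ) (ε C c : ℝ), Bd 1 Z →
    0 ≤ ε → 0 ≤ C → 0 ≤ c → (∀ i, hs (P i - (U i).1) ≤ ε * c) → (∀ k, hs (ev P (w.drop k)) ≤ C * c) →
    ‖Matrix.trace (Z * ((FreeGroup.lift U (FreeGroup.mk w)).1 - ev P w))‖ ≤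
      w.length * √(ε * C) * c

/-- FMX: the finite form S_FM (proved: Pool.Agent.N52.ST.fm_main) for matrices over any finite
index set (reindexing). -/
def S_FMX : Prop :=
  ∀ (G : Type) [Group G] (K : Subgroup G), HasT G → HasT K →
    Subgroup.closure {g : G | ∀ k ∈ K, g⁻¹ * k * g ∈ K} = ⊤ →
    ∀ (n : ℕ) (γ : FreeGroup (Fin n) →* G), Function.Surjective γ →
    ∀ (g : G), (∀ k ∈ K, g⁻¹ * k * g ∈ K) → ∀ (x : FreeGroup (Fin n)), g⁻¹ * γ x * g ∈ K →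
    ∀ ε : ℝ, 0 < ε → ∃ (δ : ℝ) (R S : Finset (FreeGroup (Fin n))), 0 < δ ∧
      (∀ w ∈ R, γ w = 1) ∧ (∀ w ∈ S, γ w ∈ K) ∧
      ∀ (X : Type) [Fintype X] [DecidableEq X] [Nonempty X] (U : Fin n → unitaryGroup X ℂ)
        (V : unitaryGroup X ℂ),
        (∀ w ∈ R, hs ((FreeGroup.lift U w).1 - 1) ≤ δ * Fintype.card X) →
        (∀ w ∈ S, hs ((FreeGroup.lift U w).1 * V.1 - V.1 * (FreeGroup.lift U w).1) ≤
          δ * Fintype.card X) →
        hs ((FreeGroup.lift U x).1 * V.1 - V.1 * (FreeGroup.lift U x).1) ≤ ε * Fintype.card X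

/-- FINL (may assume S_FMX, S_DIX, S_POL, S_TEL): the contradiction at level 3. Apply FMX with
`ε = 1/2`; let `U i` be the unitary near `P i` (POL). For `w ∈ R`,
`hs (U_w - 1) = 2 Re Tr (1 - U_w)`, and `Tr U_w` is close to `Tr P_w` (TEL) and to `Tr 1`. Let
`V = Y ⊗ 1`, `Y` a unitary which commutes with the `e l a b`; for `w ∈ S`,
`hs (U_w V - V U_w) = 2 N m - 2 Re Tr (U_w V U_w* V*)`, replace `U_w` by `P_w` and by `kr e κ`, which commutes
with `V`, and go back. So `Re Tr (Y X Y* X*) ≥ (3/4) N m` for `X = U_x`. By DIX there is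
`Z = Z₀ + kr e μ` with `Re Tr (Z X*) ≥ (3/4) N m`, but `Tr (Z X*)` is close to `Tr (Z P_x*)` (TEL), and
`|Tr (kr e μ P_x*)|² ≤ ε N² m²`, `|Tr (Z₀ P_x*)| ≤ √(hs (z₀ ⊗ 1)) √(hs (Z₀ P_x*)) ...`, more precisely
`Tr (Z₀ P_x*) = Tr ((z₀ ⊗ 1) Z₀ P_x*)`, `Bd`-boundedness of `Z₀ = (z₀ ⊗ 1) (Z₀ + kr e μ)`, so it is at
most `√(ε C) N m`. -/
def S_FINL : Prop :=
  ∀ (G : Type) [Group G] (K : Subgroup G), HasT G → HasT K →
    Subgroup.closure {g : G | ∀ k ∈ K, g⁻¹ * k * g ∈ K} = ⊤ →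
    ∀ (n : ℕ) (γ : FreeGroup (Fin n) →* G), Function.Surjective γ →
    ∀ (g : G), (∀ k ∈ K, g⁻¹ * k * g ∈ K) → ∀ (x : FreeGroup (Fin n)), g⁻¹ * γ x * g ∈ K →
    ∃ R S : Finset (FreeGroup (Fin n)), (∀ w ∈ R, γ w = 1) ∧ (∀ w ∈ S, γ w ∈ K) ∧
      ∀ C : ℝ, ∃ ε : ℝ, 0 < ε ∧ ¬ Lv3 C ε R S x

end

end Pool.Agent.P8H72.RE
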