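import Pool.Agent.P8H72.RE.Ptr

/-!
# MODEL: from level 2 to level 3
-/

set_option autoImplicit false

open scoped Topology InnerProductSpace Kronecker ComplexOrder
open Filter Matrix

namespace Pool.Agent.P8H72.RE

open Pool.Agent.N557.QWX (Op tr IsTracial IsHom)
open Pool.Agent.N859.QX (QWEP)
open Pool.Agent.W661.RC (hs IsPr)
open Pool.Agent.W683.RC (hs_nonneg hs_add_le hs_sub_le hs_sub_comm hs_smul hs_eq hs_zero
  hs_conjTranspose norm_trace_le sqrt_hs_add_le abs_sqrt_hs_sub_le hs_sum_le hs_pr_mul_le_self)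

noncomputable section

theorem mE_sum {L : ℕ} (d : Fin L → ℕ) : ∑ s : (Σ l, Fin (d l)), mE d s.1 s.2 s.2 = 1 := by
  rw [Fintype.sum_sigma]
  funext l
  rw [Finset.sum_apply]
  ext a b
  rw [Finset.sum_eq_single l]
  · rw [Finset.sum_apply, Matrix.sum_apply]
    simp only [mE, Pi.single_eq_same, Pi.one_apply, Matrix.one_apply, Matrix.single_apply]
    rw [Finset.sum_eq_single a]
    · simp [eq_comm]
    · intro c _ hc
      simp [hc]
    · simp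
  · intro l' _ hl
    rw [Finset.sum_apply]
    refine Finset.sum_eq_zero fun c _ => ?_
    show (Pi.single l' (Matrix.single c c (1 : ℂ)) : ∀ l, Matrix (Fin (d l)) (Fin (d l)) ℂ) l = 0
    rw [Pi.single_eq_of_ne (Ne.symm hl)]
  · simp

theorem norm_ev {E : Type} [NormedAddCommGroup E] [InnerProductSpace ℂ E] [CompleteSpace E]
    {n : ℕ} (P : Fin n → Op E) {C : ℝ} (hC1 : 1 ≤ C) (h : ∀ i, ‖P i‖ ≤ C)
    (w : List (Fin n × Bool)) : ‖ev P w‖ ≤ C ^ w.length := by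
  induction w with
  | nil =>
    show ‖(1 : Op E)‖ ≤ 1
    exact ContinuousLinearMap.norm_id_le
  | cons s w ih =>
    have e : ev P (s :: w) = (if s.2 = true then P s.1 else star (P s.1)) * ev P w := by
      simp only [ev, List.map_cons, List.prod_cons]
    rw [e, List.length_cons, pow_succ, mul_comm (C ^ w.length)]
    refine (norm_mul_le _ _).trans (mul_le_mul ?_ ih (norm_nonneg _) (by linarith))
    split
    · exact h _
    · rw [norm_star]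
      exact h _

section

variable {H K E : Type} [NormedAddCommGroup H] [InnerProductSpace ℂ H] [CompleteSpace H]
  [NormedAddCommGroup K] [InnerProductSpace ℂ K] [CompleteSpace K]
  [NormedAddCommGroup E] [InnerProductSpace ℂ E] [CompleteSpace E]
  {A : VonNeumannAlgebra H} {ξ : H} {N : VonNeumannAlgebra K} {ζ : K}

/-- finite sums -/
theorem TRep.fsum {R₁ : AsRep A ξ} {R₂ : AsRep N ζ} {a : Op H → Op E} {b : Op K → Op E}
    (h1 : TRep R₁ R₂ a b 1 (fun _ => 1))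
    (h2 : ∀ z Z w W, TRep R₁ R₂ a b z Z → TRep R₁ R₂ a b w W →
      TRep R₁ R₂ a b (z * w) (fun p => Z p * W p) ∧
      TRep R₁ R₂ a b (z + w) (fun p => Z p + W p) ∧
      TRep R₁ R₂ a b (z - w) (fun p => Z p - W p))
    {ι : Type*} (s : Finset ι) (z : ι → Op E) (Z : ι → ∀ p : R₁.I × R₂.I,
      Matrix (Fin (R₁.n p.1) × Fin (R₂.n p.2)) (Fin (R₁.n p.1) × Fin (R₂.n p.2)) ℂ)
    (h : ∀ k ∈ s, TRep R₁ R₂ a b (z k) (Z k)) :
    TRep R₁ R₂ a b (∑ k ∈ s, z k) (fun p => ∑ k ∈ s, Z k p) := by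
  classical
  induction s using Finset.induction_on with
  | empty =>
    have h3 := (h2 _ _ _ _ h1 h1).2.2
    simpa using h3
  | insert k s hk ih =>
    simp only [Finset.sum_insert hk]
    exact (h2 _ _ _ _ (h k (Finset.mem_insert_self _ _))
      (ih fun k hk => h k (Finset.mem_insert_of_mem hk))).2.1

/-- words -/
theorem TRep.word {R₁ : AsRep A ξ} {R₂ : AsRep N ζ} {a : Op H → Op E} {b : Op K → Op E}
    (h1 : TRep R₁ R₂ a b 1 (fun _ => 1))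
    (h2 : ∀ z Z w W, TRep R₁ R₂ a b z Z → TRep R₁ R₂ a b w W →
      TRep R₁ R₂ a b (z * w) (fun p => Z p * W p) ∧
      TRep R₁ R₂ a b (z + w) (fun p => Z p + W p) ∧
      TRep R₁ R₂ a b (z - w) (fun p => Z p - W p))
    (h3 : ∀ z Z, TRep R₁ R₂ a b z Z → TRep R₁ R₂ a b (star z) (fun p => (Z p)ᴴ))
    {n : ℕ} (P : Fin n → Op E) (Z : Fin n → ∀ p : R₁.I × R₂.I,
      Matrix (Fin (R₁.n p.1) × Fin (R₂.n p.2)) (Fin (R₁.n p.1) × Fin (R₂.n p.2)) ℂ)
    (h : ∀ i, TRep R₁ R₂ a b (P i) (Z i)) (w : List (Fin n × Bool)) :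
    TRep R₁ R₂ a b (ev P w) (fun p => ev (fun i => Z i p) w) := by
  induction w with
  | nil => exact h1
  | cons s w ih =>
    have e1 : ev P (s :: w) = (if s.2 = true then P s.1 else star (P s.1)) * ev P w := by
      simp only [ev, List.map_cons, List.prod_cons]
    have e2 : ∀ p, ev (fun i => Z i p) (s :: w) =
        (if s.2 = true then Z s.1 p else (Z s.1 p)ᴴ) * ev (fun i => Z i p) w := by
      intro p
      simp only [ev, List.map_cons, List.prod_cons, Matrix.star_eq_conjTranspose]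
    rw [e1]
    simp only [e2]
    rcases hb : s.2 with _ | _
    · simp only [if_neg (Bool.false_ne_true)]
      exact (h2 _ _ _ _ (h3 _ _ (h s.1)) ih).1
    · simp only [if_true]
      exact (h2 _ _ _ _ (h s.1) ih).1

end

theorem t_MODEL (hEXN : S_EXN) (hNET : S_NET) (hTEN : S_TEN) (hCS : S_CS) (hTSQ : S_TSQ) :
    S_MODEL := by
  classical
  intro n R S x C
  set Wd : Finset (FreeGroup (Fin n)) := insert x (R ∪ S) with hWd
  set ℓ : ℕ := Wd.sup fun w => w.toWord.length with hℓ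
  set M : ℝ := max C 1 with hM
  have hM1 : 1 ≤ M := le_max_right _ _
  refine ⟨M ^ (2 * ℓ) + 1, fun ε hε => ⟨min 1 (ε / 8), lt_min one_pos (by linarith), ?_⟩⟩
  rintro ⟨K, _, _, _, N, ζ, lv, r, α, β, P, L, d, ι, hN, hqN, hα, hβ, hP, hιi, hιA, hC, hiso, hR,
    hS, hx⟩
  set ε₁ : ℝ := min 1 (ε / 8) with hε₁
  have hε1 : 0 < ε₁ := lt_min one_pos (by linarith)
  have hε2 : ε₁ ^ 2 < ε := by
    have h1 : ε₁ ≤ 1 := min_le_left _ _
    have h2 : ε₁ ≤ ε / 8 := min_le_right _ _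
    nlinarith
  have hsq : ∀ v : lv.E, ‖v‖ ≤ ε₁ → ‖v‖ ^ 2 < ε := by
    intro v hv
    have := pow_le_pow_left₀ (norm_nonneg v) hv 2
    linarith
  obtain ⟨R₁, e, he, heA⟩ := hEXN lv.H lv.A lv.ξ lv.tracial lv.qwep L d ι hιA
  obtain ⟨R₂⟩ := hNET K N ζ hN hqN
  have := R₁.ne
  have := R₂.ne
  obtain ⟨T1, T2, T3, T4⟩ := hTEN lv.H K lv.E lv.A lv.ξ N ζ lv.T lv.η lv.a lv.b lv.tracial hN
    lv.tensor R₁ R₂
  set F := R₁.F ×ˢ R₂.F with hF
  have hη : ‖lv.η‖ = 1 := lv.tensor.tracial.unit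
  have c1 : ∀ p : R₁.I × R₂.I, (0 : ℝ) < R₁.n p.1 := fun p => R₁.cpos p.1
  have c2 : ∀ p : R₁.I × R₂.I, (0 : ℝ) < R₂.n p.2 := fun p => R₂.cpos p.2
  have c12 : ∀ p : R₁.I × R₂.I, (0 : ℝ) < (R₁.n p.1 : ℝ) * R₂.n p.2 := fun p => mul_pos (c1 p) (c2 p)
  obtain ⟨Z, hZdef⟩ : ∃ Z : Fin n → ∀ p : R₁.I × R₂.I,
      Matrix (Fin (R₁.n p.1) × Fin (R₂.n p.2)) (Fin (R₁.n p.1) × Fin (R₂.n p.2)) ℂ,
      ∀ i, Z i = tm R₁ R₂ (α i) (β i) := ⟨_, fun _ => rfl⟩
  have hZ : ∀ i, TRep R₁ R₂ lv.a lv.b (P i) (Z i) := by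
    intro i
    rw [hP i, hZdef]
    exact T1 _ _ _ (hα i) (hβ i)
  have hev : ∀ w, TRep R₁ R₂ lv.a lv.b (ev P w) (fun p => ev (fun i => Z i p) w) :=
    TRep.word T2 T3 (fun z Z h => (T4 z Z h).1) P Z hZ
  -- a limit gives an eventual inequality
  have key : ∀ (W : ∀ p : R₁.I × R₂.I, Matrix (Fin (R₁.n p.1) × Fin (R₂.n p.2))
      (Fin (R₁.n p.1) × Fin (R₂.n p.2)) ℂ) (l t : ℝ), l < t →
      Tendsto (fun p => hs (W p) / ((R₁.n p.1 : ℝ) * R₂.n p.2)) F (𝓝 l) →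
      ∀ᶠ p in F, hs (W p) ≤ t * ((R₁.n p.1 : ℝ) * R₂.n p.2) := by
    intro W l t hlt hW
    filter_upwards [hW.eventually (gt_mem_nhds hlt)] with p hp
    exact ((div_lt_iff₀ (c12 p)).1 hp).le
  -- (a)
  have E1 : ∀ w ∈ Wd, ∀ k ∈ Finset.range (ℓ + 1), ∀ᶠ p in F,
      hs (ev (fun i => Z i p) (w.toWord.drop k)) ≤
        (M ^ (2 * ℓ) + 1) * ((R₁.n p.1 : ℝ) * R₂.n p.2) := by
    intro w hw k _
    refine key _ _ _ ?_ (T4 _ _ (hev (w.toWord.drop k))).2.2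
    have h1 : ‖ev P (w.toWord.drop k)‖ ≤ M ^ (w.toWord.drop k).length :=
      norm_ev P hM1 (fun i => (hC i).trans (le_max_left _ _)) _
    have h2 : (w.toWord.drop k).length ≤ ℓ := by
      refine le_trans ?_ (Finset.le_sup (f := fun w : FreeGroup (Fin n) => w.toWord.length) hw)
      rw [List.length_drop]
      exact Nat.sub_le _ _
    have h3 : ‖ev P (w.toWord.drop k)‖ ≤ M ^ ℓ := h1.trans (pow_le_pow_right₀ hM1 h2)
    have h4 : ‖ev P (w.toWord.drop k) lv.η‖ ≤ M ^ ℓ := by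
      refine ((ev P (w.toWord.drop k)).le_opNorm lv.η).trans ?_
      rw [hη, mul_one]
      exact h3
    have h5 := pow_le_pow_left₀ (norm_nonneg _) h4 2
    rw [← pow_mul, mul_comm ℓ 2] at h5
    linarith
  -- (b)
  have E2 : ∀ i, ∀ᶠ p in F, hs ((Z i p)ᴴ * Z i p - 1) ≤ ε * ((R₁.n p.1 : ℝ) * R₂.n p.2) := by
    intro i
    have h1 := (T3 _ _ _ _ (T3 _ _ _ _ (T4 _ _ (hZ i)).1 (hZ i)).1 T2).2.2
    exact key _ _ _ (hsq _ (hiso i)) (T4 _ _ h1).2.2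
  -- (c)
  have E3 : ∀ w ∈ R, ∀ᶠ p in F, hs (ev (fun i => Z i p) w.toWord - 1) ≤
      ε * ((R₁.n p.1 : ℝ) * R₂.n p.2) := by
    intro w hw
    have h1 := (T3 _ _ _ _ (hev w.toWord) T2).2.2
    exact key _ _ _ (hsq _ (hR w hw)) (T4 _ _ h1).2.2
  -- (d)
  have E4 : ∀ w ∈ S, ∃ κ : (∀ l, Fin (d l) → Fin (d l) → Op K), ∀ᶠ p in F,
      hs (ev (fun i => Z i p) w.toWord -
        kr (m := R₂.n p.2) (e p.1) (fun l a b => R₂.Ψ p.2 (κ l a b))) ≤
      ε * ((R₁.n p.1 : ℝ) * R₂.n p.2) := by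
    intro w hw
    obtain ⟨κ, hκ, hκ'⟩ := hS w hw
    refine ⟨κ, ?_⟩
    -- the asymptotic representative of te
    have h0 : ∀ l a b, TRep R₁ R₂ lv.a lv.b (lv.a (ι (mE d l a b)) * lv.b (κ l a b))
        (fun p => R₁.Ψ p.1 (ι (mE d l a b)) ⊗ₖ R₂.Ψ p.2 (κ l a b)) := by
      intro l a b
      have h := T1 1 (fun _ => ι (mE d l a b)) (fun _ => κ l a b) (fun _ => hιA _) (fun _ => hκ l a b)
      have e1 : (∑ _s : Fin 1, lv.a (ι (mE d l a b)) * lv.b (κ l a b)) =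
        lv.a (ι (mE d l a b)) * lv.b (κ l a b) := by simp
      have e2 : tm R₁ R₂ (fun _ : Fin 1 => ι (mE d l a b)) (fun _ => κ l a b) =
        fun p : R₁.I × R₂.I => R₁.Ψ p.1 (ι (mE d l a b)) ⊗ₖ R₂.Ψ p.2 (κ l a b) := by
        funext p
        simp [tm]
      rw [e1, e2] at h
      exact h
    have h1 : TRep R₁ R₂ lv.a lv.b (te lv.a lv.b ι κ) (fun p => ∑ l, ∑ a, ∑ b,
        R₁.Ψ p.1 (ι (mE d l a b)) ⊗ₖ R₂.Ψ p.2 (κ l a b)) :=
      TRep.fsum T2 T3 _ _ (fun l (p : R₁.I × R₂.I) =>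
          ∑ a, ∑ b, R₁.Ψ p.1 (ι (mE d l a b)) ⊗ₖ R₂.Ψ p.2 (κ l a b))
        fun l _ => TRep.fsum T2 T3 _ _
        (fun a (p : R₁.I × R₂.I) => ∑ b, R₁.Ψ p.1 (ι (mE d l a b)) ⊗ₖ R₂.Ψ p.2 (κ l a b)) fun a _ =>
        TRep.fsum T2 T3 _ _ (fun b (p : R₁.I × R₂.I) => R₁.Ψ p.1 (ι (mE d l a b)) ⊗ₖ R₂.Ψ p.2 (κ l a b))
        fun b _ => h0 l a b
    have h2 := (T4 _ _ (T3 _ _ _ _ (hev w.toWord) h1).2.2).2.2
    have h3 : Eqv F (fun p : R₁.I × R₂.I => (R₁.n p.1 : ℝ) * R₂.n p.2)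
        (fun p => ∑ l, ∑ a, ∑ b, R₁.Ψ p.1 (ι (mE d l a b)) ⊗ₖ R₂.Ψ p.2 (κ l a b))
        (fun p => kr (m := R₂.n p.2) (e p.1) (fun l a b => R₂.Ψ p.2 (κ l a b))) := by
      refine Eqv.sum c12 Finset.univ fun l _ => Eqv.sum c12 Finset.univ fun a _ =>
        Eqv.sum c12 Finset.univ fun b _ => ?_
      obtain ⟨C', hC0, hC'⟩ := R₂.hs_le (hκ l a b)
      refine Eqv.of_le (fun p => (hs (e p.1 l a b - R₁.Ψ p.1 (ι (mE d l a b))) / R₁.n p.1) * C')
        ?_ c12 fun p => ?_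
      · have := ((heA l a b).comp (tendsto_fst (g := R₂.F))).mul_const C'
        rw [zero_mul] at this
        exact this
      · have h4 : R₁.Ψ p.1 (ι (mE d l a b)) ⊗ₖ R₂.Ψ p.2 (κ l a b) -
            e p.1 l a b ⊗ₖ R₂.Ψ p.2 (κ l a b) =
            (R₁.Ψ p.1 (ι (mE d l a b)) - e p.1 l a b) ⊗ₖ R₂.Ψ p.2 (κ l a b) := by
          ext i j
          simp only [Matrix.sub_apply, kroneckerMap_apply]
          ring
        rw [h4, hs_kron, mul_div_mul_comm, hs_sub_comm]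
        refine mul_le_mul_of_nonneg_left ?_ (div_nonneg (hs_nonneg _) (c1 p).le)
        rw [div_le_iff₀ (c2 p)]
        exact hC' p.2
    have h5 : Eqv F (fun p : R₁.I × R₂.I => (R₁.n p.1 : ℝ) * R₂.n p.2)
        (fun p => ev (fun i => Z i p) w.toWord - ∑ l, ∑ a, ∑ b,
          R₁.Ψ p.1 (ι (mE d l a b)) ⊗ₖ R₂.Ψ p.2 (κ l a b))
        (fun p => ev (fun i => Z i p) w.toWord -
          kr (m := R₂.n p.2) (e p.1) (fun l a b => R₂.Ψ p.2 (κ l a b))) := by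
      refine Eqv.of_le _ h3 c12 fun p => ?_
      rw [sub_sub_sub_cancel_left, hs_sub_comm]
    exact key _ _ _ (hsq _ hκ') (h5.lim c12 h2)
  -- (e)
  obtain ⟨hpos, hT⟩ := hTSQ lv.H K lv.E lv.A lv.ξ N ζ lv.T lv.η lv.a lv.b lv.tracial hN lv.tensor
    L d ι hιi hιA
  obtain ⟨r', α', β', hα', hβ', hxx, hXlim⟩ := (hev x.toWord).ex
  have hSg := hT r' α' β' ε₁ hα' hβ' hε1.le (by
    intro κ hκ
    rw [← hxx]
    exact hx κ hκ)
  have htr : ∀ l a, Tendsto (fun p : R₁.I × R₂.I => (Matrix.trace (e p.1 l a a)).re / R₁.n p.1) F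
      (𝓝 (tr lv.ξ (ι (mE d l a a))).re) := by
    intro l a
    have h1 := trace_e_lim R₁ (hιA (mE d l a a)) (one_mem lv.A) (fun i => e i l a a) (heA l a a)
    have h2 : Tendsto (fun i => Matrix.trace (e i l a a) / (R₁.n i : ℂ)) R₁.F
        (𝓝 (tr lv.ξ (ι (mE d l a a)))) := by
      have h3 : Tendsto (fun i => Matrix.trace ((e i l a a)ᴴ * R₁.Ψ i 1) / (R₁.n i : ℂ) -
          Matrix.trace (e i l a a) / (R₁.n i : ℂ)) R₁.F (𝓝 0) := by
        have h5 : Tendsto (fun i => √(hs (R₁.Ψ i 1 - 1) / R₁.n i)) R₁.F (𝓝 0) := by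
          have := (Real.continuous_sqrt.tendsto 0).comp R₁.one
          rw [Real.sqrt_zero] at this
          exact this
        refine squeeze_zero_norm (fun i => ?_) h5
        have hn := R₁.cpos i
        have e1 : Matrix.trace ((e i l a a)ᴴ * R₁.Ψ i 1) - Matrix.trace (e i l a a) =
            Matrix.trace ((e i l a a)ᴴ * (R₁.Ψ i 1 - 1)) := by
          rw [Matrix.mul_sub, Matrix.mul_one, Matrix.trace_sub, (he i).star]
        rw [← sub_div, norm_div, e1, Complex.norm_natCast, div_le_iff₀ hn]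
        refine (norm_trace_le _ _).trans ?_
        have h6 : hs (e i l a a) ≤ R₁.n i := by
          have hp : IsPr (e i l a a) := ⟨(he i).star l a a, (he i).mul l a a a⟩
          have := hs_pr_mul_le_self hp (1 : Matrix (Fin (R₁.n i)) (Fin (R₁.n i)) ℂ)
          rw [Matrix.mul_one, hs_one, Fintype.card_fin] at this
          exact this
        refine (mul_le_mul_of_nonneg_right (Real.sqrt_le_sqrt h6) (Real.sqrt_nonneg _)).trans
          (le_of_eq ?_)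
        rw [Real.sqrt_div (hs_nonneg _)]
        have h7 : √(R₁.n i : ℝ) * √(R₁.n i : ℝ) = R₁.n i := Real.mul_self_sqrt (Nat.cast_nonneg _)
        have h8 : √(R₁.n i : ℝ) ≠ 0 := (Real.sqrt_pos.2 hn).ne'
        field_simp
        rw [sq, h7, mul_comm]
      have h4 := h1.sub h3
      simp only [sub_sub_cancel, sub_zero, mul_one] at h4
      have h5 : star (ι (mE d l a a)) = ι (mE d l a a) := by
        rw [← map_star]
        congr 1
        funext l'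
        by_cases hl : l' = l
        · subst hl
          simp [mE, Matrix.star_eq_conjTranspose, Matrix.conjTranspose_single]
        · simp [mE, Pi.single_eq_of_ne hl]
      rw [h5] at h4
      exact h4
    have h3 := ((Complex.continuous_re.tendsto _).comp h2).comp (tendsto_fst (g := R₂.F))
    refine h3.congr fun p => ?_
    show (Matrix.trace (e p.1 l a a) / (R₁.n p.1 : ℂ)).re = _
    rw [Complex.div_natCast_re]
  have E5a : ∀ l a, ∀ᶠ p in F, 0 < (Matrix.trace (e p.1 l a a)).re := by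
    intro l a
    filter_upwards [(htr l a).eventually (lt_mem_nhds (hpos l a))] with p hp
    have := (lt_div_iff₀ (c1 p)).1 hp
    linarith
  have hptr : ∀ l a b, Tendsto (fun p : R₁.I × R₂.I =>
      (hs (ptr (((e p.1 l a b)ᴴ ⊗ₖ (1 : Matrix (Fin (R₂.n p.2)) (Fin (R₂.n p.2)) ℂ)) *
        ev (fun i => Z i p) x.toWord)) / ((R₁.n p.1 : ℝ) ^ 2 * R₂.n p.2)) /
        ((Matrix.trace (e p.1 l a a)).re / R₁.n p.1)) F
      (𝓝 (‖(∑ s, tr lv.ξ (star (ι (mE d l a b)) * α' s) • β' s) ζ‖ ^ 2 /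
        (tr lv.ξ (ι (mE d l a a))).re)) := by
    intro l a b
    refine Tendsto.div ?_ (htr l a) (hpos l a).ne'
    refine ptr_lim R₁ R₂ (hιA (mE d l a b)) (fun i => e i l a b) (heA l a b) (fun i => ?_) α' β'
      hα' hβ' _ hXlim
    rw [(he i).star, (he i).mul, (he i).mul]
  have hsum : Tendsto (fun p : R₁.I × R₂.I => ∑ l, ∑ a, ∑ b,
      (hs (ptr (((e p.1 l a b)ᴴ ⊗ₖ (1 : Matrix (Fin (R₂.n p.2)) (Fin (R₂.n p.2)) ℂ)) *
        ev (fun i => Z i p) x.toWord)) / ((R₁.n p.1 : ℝ) ^ 2 * R₂.n p.2)) /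
        ((Matrix.trace (e p.1 l a a)).re / R₁.n p.1)) F
      (𝓝 (∑ l, ∑ a, ∑ b, ‖(∑ s, tr lv.ξ (star (ι (mE d l a b)) * α' s) • β' s) ζ‖ ^ 2 /
        (tr lv.ξ (ι (mE d l a a))).re)) :=
    tendsto_finsetSum _ fun l _ => tendsto_finsetSum _ fun a _ => tendsto_finsetSum _ fun b _ =>
      hptr l a b
  have E5 : ∀ᶠ p in F, ∑ l, ∑ a, ∑ b,
      hs (ptr (((e p.1 l a b)ᴴ ⊗ₖ (1 : Matrix (Fin (R₂.n p.2)) (Fin (R₂.n p.2)) ℂ)) *
        ev (fun i => Z i p) x.toWord)) / (Matrix.trace (e p.1 l a a)).re ≤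
      ε * ((R₁.n p.1 : ℝ) * R₂.n p.2) := by
    filter_upwards [hsum.eventually (gt_mem_nhds (hSg.trans_lt hε2))] with p hp
    have h1 : ∑ l, ∑ a, ∑ b,
      hs (ptr (((e p.1 l a b)ᴴ ⊗ₖ (1 : Matrix (Fin (R₂.n p.2)) (Fin (R₂.n p.2)) ℂ)) *
        ev (fun i => Z i p) x.toWord)) / (Matrix.trace (e p.1 l a a)).re =
      (∑ l, ∑ a, ∑ b,
      (hs (ptr (((e p.1 l a b)ᴴ ⊗ₖ (1 : Matrix (Fin (R₂.n p.2)) (Fin (R₂.n p.2)) ℂ)) *
        ev (fun i => Z i p) x.toWord)) / ((R₁.n p.1 : ℝ) ^ 2 * R₂.n p.2)) /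
        ((Matrix.trace (e p.1 l a a)).re / R₁.n p.1)) * ((R₁.n p.1 : ℝ) * R₂.n p.2) := by
      rw [Finset.sum_mul]
      refine Finset.sum_congr rfl fun l _ => ?_
      rw [Finset.sum_mul]
      refine Finset.sum_congr rfl fun a _ => ?_
      rw [Finset.sum_mul]
      refine Finset.sum_congr rfl fun b _ => ?_
      have h2 := (c1 p).ne'
      have h3 := (c2 p).ne'
      field_simp
    rw [h1]
    exact mul_le_mul_of_nonneg_right hp.le (c12 p).le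
  -- (f)
  have E6 : ∀ᶠ p in F, hs (1 - ∑ l, ∑ a, e p.1 l a a) ≤ ε * (R₁.n p.1 : ℝ) := by
    have h1 : Eqv R₁.F (fun i => (R₁.n i : ℝ)) (fun i => ∑ s : (Σ l, Fin (d l)), e i s.1 s.2 s.2)
        (fun i => ∑ s : (Σ l, Fin (d l)), (1 : ℂ) • R₁.Ψ i (ι (mE d s.1 s.2 s.2))) := by
      refine Eqv.sum R₁.cpos Finset.univ fun s _ => ?_
      simp only [one_smul]
      exact heA s.1 s.2 s.2
    have h2 := R₁.sum Finset.univ (fun _ : (Σ l, Fin (d l)) => (1 : ℂ))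
      (fun s => ι (mE d s.1 s.2 s.2)) fun s _ => hιA _
    have h3 : ∑ s : (Σ l, Fin (d l)), (1 : ℂ) • ι (mE d s.1 s.2 s.2) = 1 := by
      simp only [one_smul]
      rw [← map_sum, mE_sum, map_one]
    have h4 : Eqv R₁.F (fun i => (R₁.n i : ℝ)) (fun i => R₁.Ψ i (∑ s : (Σ l, Fin (d l)),
        (1 : ℂ) • ι (mE d s.1 s.2 s.2))) (fun _ => 1) := by
      rw [h3]
      exact R₁.one
    have h5 := ((h1.trans R₁.cpos h2.symm).trans R₁.cpos h4).symm
    have h6 := (h5.eventually (gt_mem_nhds hε))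
    have h7 : ∀ᶠ p : R₁.I × R₂.I in F, hs ((1 : Matrix (Fin (R₁.n p.1)) (Fin (R₁.n p.1)) ℂ) -
        ∑ s : (Σ l, Fin (d l)), e p.1 s.1 s.2 s.2) / (R₁.n p.1 : ℝ) < ε :=
      (tendsto_fst (g := R₂.F)).eventually h6
    filter_upwards [h7] with p hp
    rw [Fintype.sum_sigma] at hp
    exact ((div_lt_iff₀ (c1 p)).1 hp).le
  choose κ hκ using E4
  have A1 : ∀ᶠ p in F, ∀ w ∈ Wd, ∀ k ∈ Finset.range (ℓ + 1),
      hs (ev (fun i => Z i p) (w.toWord.drop k)) ≤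
        (M ^ (2 * ℓ) + 1) * ((R₁.n p.1 : ℝ) * R₂.n p.2) :=
    (Finset.eventually_all Wd).2 fun w hw => (Finset.eventually_all _).2 fun k hk => E1 w hw k hk
  have A2 : ∀ᶠ p in F, ∀ i, hs ((Z i p)ᴴ * Z i p - 1) ≤ ε * ((R₁.n p.1 : ℝ) * R₂.n p.2) :=
    eventually_all.2 E2
  have A3 : ∀ᶠ p in F, ∀ w ∈ R, hs (ev (fun i => Z i p) w.toWord - 1) ≤
      ε * ((R₁.n p.1 : ℝ) * R₂.n p.2) := (Finset.eventually_all R).2 E3
  have A4 : ∀ᶠ p in F, ∀ w : S, hs (ev (fun i => Z i p) w.1.toWord -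
        kr (m := R₂.n p.2) (e p.1) (fun l a b => R₂.Ψ p.2 (κ w.1 w.2 l a b))) ≤
      ε * ((R₁.n p.1 : ℝ) * R₂.n p.2) := eventually_all.2 fun w => hκ w.1 w.2
  have A5 : ∀ᶠ p in F, ∀ l a, 0 < (Matrix.trace (e p.1 l a a)).re :=
    eventually_all.2 fun l => eventually_all.2 fun a => E5a l a
  obtain ⟨p, B1, B2, B3, B4, B5, B6, B7⟩ :=
    (A1.and (A2.and (A3.and (A4.and (A5.and (E5.and E6)))))).exists
  refine ⟨R₁.n p.1, R₂.n p.2, fun i => Z i p, L, d, e p.1, R₁.pos _, R₂.pos _, he p.1, ?_, B2, B3,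
    ?_, ?_, B7⟩
  · intro w hw k
    have hw' : w ∈ Wd := by
      rw [hWd]
      rcases hw with h | h | h
      · exact Finset.mem_insert_of_mem (Finset.mem_union_left _ h)
      · exact Finset.mem_insert_of_mem (Finset.mem_union_right _ h)
      · rw [h]
        exact Finset.mem_insert_self _ _
    have hlen : w.toWord.length ≤ ℓ :=
      Finset.le_sup (f := fun w : FreeGroup (Fin n) => w.toWord.length) hw'
    rcases le_or_gt k ℓ with hk | hk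
    · exact B1 w hw' k (Finset.mem_range.2 (by omega))
    · have h1 := B1 w hw' ℓ (Finset.mem_range.2 (by omega))
      have e1 : w.toWord.drop k = [] := List.drop_eq_nil_of_le (by omega)
      have e2 : w.toWord.drop ℓ = [] := List.drop_eq_nil_of_le hlen
      rw [e1]
      rw [e2] at h1
      exact h1
  · intro w hw
    exact ⟨_, B4 ⟨w, hw⟩⟩
  · intro μ
    have h1 := hCS (R₁.n p.1) (R₂.n p.2) L d (e p.1) (he p.1) B5
      (ev (fun i => Z i p) x.toWord) μ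
    refine h1.trans ?_
    calc hs (kr (e p.1) μ) * _ ≤ hs (kr (e p.1) μ) * (ε * ((R₁.n p.1 : ℝ) * R₂.n p.2)) :=
          mul_le_mul_of_nonneg_left B6 (hs_nonneg _)
      _ = _ := by ring

end

end Pool.Agent.P8H72.RE
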