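import Pool.Agent.P8H72.RE.Vn
import Pool.Agent.P8H72.RE.Model
import Pool.Agent.N859.QW.Conv
import Pool.Agent.N52.ST.Final
import Pool.Agent.N289.SA.Pair
import Pool.Agent.N303.KQ.FG

/-!
# Project RE: assembly of the packages
-/

set_option autoImplicit false

open scoped Topology InnerProductSpace
open Filter

namespace Pool.Agent.P8H72.RE

open Pool.Agent.N557.QWX (Op tr IsTracial IsHom)
open Pool.Agent.N859.QX (QWEP)
open Pool.Agent.N557.QW (RF lam LG lam_mem star_lam)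
open Pool.Agent.H494R3.GT (L2 dl vec_ext op_ext)
open Pool.Agent.W661.RC (hs HasT Le)

theorem tracial_of {H : Type} [NormedAddCommGroup H] [InnerProductSpace ℂ H] [CompleteSpace H]
    {N : VonNeumannAlgebra H} {ξ : H} (h : Pool.Agent.N557.QW.IsTracial N ξ) : IsTracial N ξ where
  unit := h.unit
  tracial x hx y hy := h.tracial x hx y hy
  faithful x hx hxx := by
    refine h.faithful x hx ?_
    have h1 : inner ℂ (x ξ) (x ξ) = 0 := by
      rw [← ContinuousLinearMap.adjoint_inner_right]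
      exact hxx
    exact inner_self_eq_zero.1 h1

theorem tracial_LG (G : Type) [Group G] : IsTracial (LG G) (dl (1 : G)) :=
  tracial_of (Pool.Agent.N169.QWP.t_com G).2

theorem qwep_of_RF {G : Type} [Group G] (h : RF G) : QWEP (LG G) :=
  (Pool.Agent.N859.QX.qwep_iff _).2 (Pool.Agent.N557.QW.qwep_LG G h)

/-- The assembly: the pair of groups. -/
theorem asm (hGRP : S_GRP) (hEXTR : S_EXTR) (hMID : S_MID) (hMODEL : S_MODEL) (hFINL : S_FINL) :
    ∃ (Γ : Type) (_ : Group Γ) (H : Subgroup Γ), Countable Γ ∧ CoAmenable H ∧ RF H ∧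
      ∀ M N : VonNeumannAlgebra (L2 Γ), GeneratedBy M (Set.range lam) →
        GeneratedBy N {z | ∃ h ∈ H, z = lam h} →
        ∀ (K₁ : Type) [NormedAddCommGroup K₁] [InnerProductSpace ℂ K₁] [CompleteSpace K₁]
          (N₁ : VonNeumannAlgebra K₁) (ζ : K₁), IsTracial N₁ ζ → QWEP N₁ →
          ¬ IsRE M N (dl (1 : Γ)) N₁ ζ := by
  obtain ⟨G, _, K, hcount, hrf, hG, hK, hcl, g, hg, k, hk, hgk⟩ := Pool.Agent.N289.SA.s_pair
  obtain ⟨n, γ, hγ⟩ := Pool.Agent.N303.KQ.exists_free hG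
  obtain ⟨Γ, _, H, j, hΓ, hco, hRF, hj⟩ := hGRP G K hcount hrf
  refine ⟨Γ, inferInstance, H, hΓ, hco, hRF, ?_⟩
  intro M N hM hN K₁ _ _ _ N₁ ζ hN₁ hq hRE
  obtain ⟨x, hx⟩ := hγ (g * k * g⁻¹)
  have hx1 : g⁻¹ * γ x * g ∈ K := by
    rw [hx]
    have : g⁻¹ * (g * k * g⁻¹) * g = k := by group
    rw [this]
    exact hk
  have hx2 : γ x ∉ K := by
    rw [hx]
    exact hgk
  obtain ⟨R, S, hR, hS, hfin⟩ := hFINL G K hG hK hcl n γ hγ g hg x hx1
  obtain ⟨C, hC⟩ := hEXTR G Γ K H j n γ hj M N hM hN K₁ N₁ ζ hN₁ hq hRE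
  obtain ⟨C', hC'⟩ := hMID n R S x C
  obtain ⟨C'', hC''⟩ := hMODEL n R S x C'
  obtain ⟨ε, hε, hnot⟩ := hfin C''
  obtain ⟨ε₁, hε₁, h1⟩ := hC'' ε hε
  obtain ⟨ε₂, hε₂, h2⟩ := hC' ε₁ hε₁
  exact hnot (h1 (h2 (hC ε₂ hε₂ R S x hR hS hx2)))

end Pool.Agent.P8H72.RE
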