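import Pool.Agent.N557.QW.Fin

/-!
# Relative embeddability: definitions
-/

set_option autoImplicit false

open scoped Topology InnerProductSpace
open Filter

namespace Pool.Agent.P8H72.RE

open Pool.Agent.N557.QWX (Op tr IsTracial IsHom)
open Pool.Agent.N859.QX (QWEP)

section general

variable {H K E : Type} [NormedAddCommGroup H] [InnerProductSpace ℂ H] [CompleteSpace H]
  [NormedAddCommGroup K] [InnerProductSpace ℂ K] [CompleteSpace K]
  [NormedAddCommGroup E] [InnerProductSpace ℂ E] [CompleteSpace E]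

/-- `M` is the von Neumann algebra generated by the set `X` of operators. -/
structure GeneratedBy (M : VonNeumannAlgebra H) (X : Set (Op H)) : Prop where
  mem : ∀ x ∈ X, x ∈ M
  least : ∀ M' : VonNeumannAlgebra H, (∀ x ∈ X, x ∈ M') → M ≤ M'

/-- The closed subspace `L²(Q)` of the Hilbert space: the closure of `{y ξ : y ∈ Q}`. -/
noncomputable def L2sub (Q : VonNeumannAlgebra H) (ξ : H) : Submodule ℂ H :=
  (Submodule.span ℂ {w | ∃ y ∈ Q, w = y ξ}).topologicalClosure

instance (Q : VonNeumannAlgebra H) (ξ : H) : CompleteSpace (L2sub Q ξ) :=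
  (Submodule.isClosed_topologicalClosure _).completeSpace_coe

/-- The orthogonal projection `e_Q` onto `L²(Q)`. If `Q` is a von Neumann subalgebra of the tracial
von Neumann algebra `(P, ⟨ξ, · ξ⟩)` then `E_{P,Q}(x) ξ = e_Q (x ξ)` for all `x` in `P`. -/
noncomputable def eQ (Q : VonNeumannAlgebra H) (ξ : H) (v : H) : H := (L2sub Q ξ).starProjection v

/-- `e = E_Q(x)`, the value at `x` of the trace preserving conditional expectation onto `Q`. -/
structure IsExp (Q : VonNeumannAlgebra H) (ξ : H) (x e : Op H) : Prop where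
  mem : e ∈ Q
  val : e ξ = eQ Q ξ (x ξ)

/-- `(T, ⟨η, · η⟩)` with the embeddings `a` and `b` is the von Neumann algebra tensor product of the
tracial von Neumann algebras `(A, ⟨ξ, · ξ⟩)` and `(N, ⟨ζ, · ζ⟩)`: the images of `a` and `b` commute,
generate `T`, and the trace is the product trace. -/
structure IsTensor (A : VonNeumannAlgebra H) (ξ : H) (N : VonNeumannAlgebra K) (ζ : K)
    (T : VonNeumannAlgebra E) (η : E) (a : Op H → Op E) (b : Op K → Op E) : Prop where
  tracial : IsTracial T η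
  homA : IsHom A T a
  homN : IsHom N T b
  comm : ∀ x ∈ A, ∀ y ∈ N, a x * b y = b y * a x
  trace : ∀ x ∈ A, ∀ y ∈ N, tr η (a x * b y) = tr ξ x * tr ζ y
  gen : GeneratedBy T ({z | ∃ x ∈ A, z = a x} ∪ {z | ∃ y ∈ N, z = b y})

/-- The von Neumann algebra `B`, with the trace `⟨ξ, · ξ⟩`, is hyperfinite: every finite subset is
approximated in the 2-norm by finite-dimensional `*`-subalgebras, that is, by images of finite direct
sums of matrix algebras under injective unital `*`-homomorphisms. -/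
def IsHyperfinite (B : VonNeumannAlgebra H) (ξ : H) : Prop :=
  ∀ (F : Finset (Op H)) (ε : ℝ), (∀ x ∈ F, x ∈ B) → 0 < ε →
    ∃ (L : ℕ) (d : Fin L → ℕ) (ι : (∀ l, Matrix (Fin (d l)) (Fin (d l)) ℂ) →⋆ₐ[ℂ] Op H),
      Function.Injective ι ∧ (∀ z, ι z ∈ B) ∧ ∀ x ∈ F, ∃ z, ‖(x - ι z) ξ‖ ≤ ε

/-- One term of the sequence in the definition of relative embeddability over the tracial von Neumann
algebra `(N, ⟨ζ, · ζ⟩)`: a QWEP finite von Neumann algebra `A` with a hyperfinite von Neumann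
subalgebra `B`, the tensor product `T` of `A` and `N`, and its subalgebra `S`, the tensor product of
`B` and `N`. -/
structure Level (N : VonNeumannAlgebra K) (ζ : K) where
  H : Type
  [n1 : NormedAddCommGroup H]
  [n2 : InnerProductSpace ℂ H]
  [n3 : CompleteSpace H]
  E : Type
  [m1 : NormedAddCommGroup E]
  [m2 : InnerProductSpace ℂ E]
  [m3 : CompleteSpace E]
  A : VonNeumannAlgebra H
  B : VonNeumannAlgebra H
  ξ : H
  T : VonNeumannAlgebra E
  S : VonNeumannAlgebra E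
  η : E
  a : Op H → Op E
  b : Op K → Op E
  tracial : IsTracial A ξ
  qwep : QWEP A
  le : B ≤ A
  hyperfinite : IsHyperfinite B ξ
  tensor : IsTensor A ξ N ζ T η a b
  gen : GeneratedBy S ({z | ∃ x ∈ B, z = a x} ∪ {z | ∃ y ∈ N, z = b y})

attribute [instance] Level.n1 Level.n2 Level.n3 Level.m1 Level.m2 Level.m3

/-- The data in the definition of relative embeddability of the inclusion `N ⊆ M` of finite von
Neumann algebras (with the trace `⟨ξ, · ξ⟩`) over the finite von Neumann algebra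
`(N₁, ⟨ζ, · ζ⟩)`: an ultrafilter `ω`, QWEP algebras `A_k` with hyperfinite subalgebras `B_k`, and a
tracial embedding `π` of `M` into the tracial ultraproduct of the `T_k = A_k ⊗ N₁`. Elements of the
ultraproduct are given by bounded sequences; two sequences define the same element if the 2-norm of
the difference tends to `0` along `ω`. -/
structure RData (M N : VonNeumannAlgebra H) (ξ : H) (N₁ : VonNeumannAlgebra K) (ζ : K) where
  ω : Ultrafilter ℕ
  lv : ℕ → Level N₁ ζ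
  π : Op H → ∀ k, Op (lv k).E
  /-- `π x` is a bounded sequence in the algebras `T_k` -/
  mem : ∀ x ∈ M, ∀ k, π x k ∈ (lv k).T
  bdd : ∀ x ∈ M, ∃ C : ℝ, ∀ k, ‖π x k‖ ≤ C
  /-- `π` is a unital `*`-homomorphism -/
  one : Tendsto (fun k => ‖(π 1 k - 1) (lv k).η‖) ω (𝓝 0)
  add : ∀ x ∈ M, ∀ y ∈ M, Tendsto (fun k => ‖(π (x + y) k - (π x k + π y k)) (lv k).η‖) ω (𝓝 0)
  smul : ∀ c : ℂ, ∀ x ∈ M, Tendsto (fun k => ‖(π (c • x) k - c • π x k) (lv k).η‖) ω (𝓝 0)
  mul : ∀ x ∈ M, ∀ y ∈ M, Tendsto (fun k => ‖(π (x * y) k - π x k * π y k) (lv k).η‖) ω (𝓝 0)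
  star : ∀ x ∈ M, Tendsto (fun k => ‖(π (star x) k - star (π x k)) (lv k).η‖) ω (𝓝 0)
  /-- `π` preserves the trace -/
  trace : ∀ x ∈ M, Tendsto (fun k => tr (lv k).η (π x k)) ω (𝓝 (tr ξ x))
  /-- `π` maps `N` into the ultraproduct of the `S_k = B_k ⊗ N₁` -/
  sub : ∀ x ∈ N, ∃ y : ∀ k, Op (lv k).E, (∀ k, y k ∈ (lv k).S) ∧ (∃ C : ℝ, ∀ k, ‖y k‖ ≤ C) ∧
    Tendsto (fun k => ‖(π x k - y k) (lv k).η‖) ω (𝓝 0)
  /-- commuting square: the conditional expectation onto the ultraproduct of the `S_k` maps `π x` to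
  `π (E_N x)` -/
  square : ∀ x ∈ M, ∀ e, IsExp N ξ x e →
    Tendsto (fun k => ‖eQ (lv k).S (lv k).η (π x k (lv k).η) - π e k (lv k).η‖) ω (𝓝 0)

/-- The inclusion `N ⊆ M` is RE/`N₁`. -/
def IsRE (M N : VonNeumannAlgebra H) (ξ : H) (N₁ : VonNeumannAlgebra K) (ζ : K) : Prop :=
  Nonempty (RData M N ξ N₁ ζ)

end general

section groups

variable {G : Type} [Group G]

/-- `m` is a `G`-invariant mean on the bounded functions on `G / H`. -/
structure IsInvMean (H : Subgroup G) (m : (G ⧸ H → ℝ) → ℝ) : Prop where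
  one : m (fun _ => 1) = 1
  nonneg : ∀ f : G ⧸ H → ℝ, (∃ C : ℝ, ∀ x, |f x| ≤ C) → (∀ x, 0 ≤ f x) → 0 ≤ m f
  add : ∀ f g : G ⧸ H → ℝ, (∃ C : ℝ, ∀ x, |f x| ≤ C) → (∃ C : ℝ, ∀ x, |g x| ≤ C) →
    m (fun x => f x + g x) = m f + m g
  smul : ∀ (c : ℝ) (f : G ⧸ H → ℝ), (∃ C : ℝ, ∀ x, |f x| ≤ C) → m (fun x => c * f x) = c * m f
  inv : ∀ (g : G) (f : G ⧸ H → ℝ), (∃ C : ℝ, ∀ x, |f x| ≤ C) → m (fun x => f (g • x)) = m f

/-- `H` is co-amenable in `G`. -/
def CoAmenable (H : Subgroup G) : Prop := ∃ m : (G ⧸ H → ℝ) → ℝ, IsInvMean H m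

end groups

end Pool.Agent.P8H72.RE
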