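import Pool.Agent.P8H72.RE.Stm
import Pool.Agent.W683.RC.Bas

/-!
# Asymptotic calculus for families of matrices
-/

set_option autoImplicit false

open scoped Topology InnerProductSpace Kronecker ComplexOrder
open Filter Matrix

namespace Pool.Agent.P8H72.RE

open Pool.Agent.N557.QWX (Op tr IsTracial IsHom)
open Pool.Agent.W661.RC (hs)
open Pool.Agent.W683.RC (hs_nonneg hs_add_le hs_sub_le hs_sub_comm hs_smul hs_eq hs_zero
  hs_conjTranspose norm_trace_le sqrt_hs_add_le abs_sqrt_hs_sub_le hs_sum_le)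

noncomputable section

/-- hs of an elementary tensor -/
theorem hs_kron {X Y : Type} [Fintype X] [Fintype Y] (A : Matrix X X ℂ) (B : Matrix Y Y ℂ) :
    hs (A ⊗ₖ B) = hs A * hs B := by
  have h1 : hs (A ⊗ₖ B) = ∑ i : X × Y, ∑ j : X × Y, ‖A i.1 j.1‖ ^ 2 * ‖B i.2 j.2‖ ^ 2 := by
    refine Finset.sum_congr rfl fun i _ => Finset.sum_congr rfl fun j _ => ?_
    rw [kroneckerMap_apply, norm_mul, mul_pow]
  have h2 : hs A * hs B = ∑ i : X, ∑ i' : Y, ∑ j : X, ∑ j' : Y, ‖A i j‖ ^ 2 * ‖B i' j'‖ ^ 2 := by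
    show (∑ i, ∑ j, ‖A i j‖ ^ 2) * (∑ i', ∑ j', ‖B i' j'‖ ^ 2) = _
    rw [Finset.sum_mul_sum]
    refine Finset.sum_congr rfl fun i _ => Finset.sum_congr rfl fun i' _ => ?_
    rw [Finset.sum_mul_sum]
  rw [h1, h2, Fintype.sum_prod_type]
  refine Finset.sum_congr rfl fun i _ => Finset.sum_congr rfl fun i' _ => ?_
  rw [Fintype.sum_prod_type]

theorem hs_one {X : Type} [Fintype X] [DecidableEq X] : hs (1 : Matrix X X ℂ) = Fintype.card X := by
  rw [hs_eq, conjTranspose_one, Matrix.one_mul, trace_one]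
  simp

theorem norm_trace_le' {X : Type} [Fintype X] [DecidableEq X] (D : Matrix X X ℂ) :
    ‖Matrix.trace D‖ ≤ √(Fintype.card X) * √(hs D) := by
  have h := norm_trace_le (1 : Matrix X X ℂ) D
  rwa [conjTranspose_one, Matrix.one_mul, hs_one] at h

section eqv

variable {I : Type} {F : Filter I} {X : I → Type} [∀ i, Fintype (X i)] {c : I → ℝ}

/-- asymptotic equality -/
def Eqv (F : Filter I) (c : I → ℝ) (Z W : ∀ i, Matrix (X i) (X i) ℂ) : Prop :=
  Tendsto (fun i => hs (Z i - W i) / c i) F (𝓝 0)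

theorem Eqv.refl (Z : ∀ i, Matrix (X i) (X i) ℂ) : Eqv F c Z Z := by
  unfold Eqv
  simp only [sub_self, hs_zero, zero_div]
  exact tendsto_const_nhds

theorem Eqv.symm {Z W : ∀ i, Matrix (X i) (X i) ℂ} (h : Eqv F c Z W) : Eqv F c W Z := by
  unfold Eqv at *
  simpa only [hs_sub_comm] using h

theorem Eqv.of_le {Z W : ∀ i, Matrix (X i) (X i) ℂ} (f : I → ℝ) (hf : Tendsto f F (𝓝 0))
    (hc : ∀ i, 0 < c i) (h : ∀ i, hs (Z i - W i) / c i ≤ f i) : Eqv F c Z W :=
  squeeze_zero (fun i => div_nonneg (hs_nonneg _) (hc i).le) h hf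

theorem Eqv.add (hc : ∀ i, 0 < c i) {Z W Z' W' : ∀ i, Matrix (X i) (X i) ℂ} (h : Eqv F c Z W)
    (h' : Eqv F c Z' W') : Eqv F c (fun i => Z i + Z' i) (fun i => W i + W' i) := by
  refine Eqv.of_le (fun i => 2 * (hs (Z i - W i) / c i) + 2 * (hs (Z' i - W' i) / c i)) ?_ hc ?_
  · simpa using (h.const_mul 2).add (h'.const_mul 2)
  · intro i
    have e : Z i + Z' i - (W i + W' i) = (Z i - W i) + (Z' i - W' i) := by abel
    rw [e, ← mul_div_assoc, ← mul_div_assoc, ← add_div]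
    exact div_le_div_of_nonneg_right (hs_add_le _ _) (hc i).le

theorem Eqv.trans (hc : ∀ i, 0 < c i) {Z W V : ∀ i, Matrix (X i) (X i) ℂ} (h : Eqv F c Z W)
    (h' : Eqv F c W V) : Eqv F c Z V := by
  refine Eqv.of_le (fun i => 2 * (hs (Z i - W i) / c i) + 2 * (hs (W i - V i) / c i)) ?_ hc ?_
  · simpa using (h.const_mul 2).add (h'.const_mul 2)
  · intro i
    have e : Z i - V i = (Z i - W i) + (W i - V i) := by abel
    rw [e, ← mul_div_assoc, ← mul_div_assoc, ← add_div]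
    exact div_le_div_of_nonneg_right (hs_add_le _ _) (hc i).le

theorem Eqv.sum (hc : ∀ i, 0 < c i) {ι : Type*} (s : Finset ι)
    {Z W : ι → ∀ i, Matrix (X i) (X i) ℂ} (h : ∀ k ∈ s, Eqv F c (Z k) (W k)) :
    Eqv F c (fun i => ∑ k ∈ s, Z k i) (fun i => ∑ k ∈ s, W k i) := by
  classical
  induction s using Finset.induction_on with
  | empty =>
    simp only [Finset.sum_empty]
    exact Eqv.refl _
  | insert a s ha ih =>
    simp only [Finset.sum_insert ha]
    exact (h a (Finset.mem_insert_self _ _)).add hc (ih fun k hk => h k (Finset.mem_insert_of_mem hk))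

theorem Eqv.smul (hc : ∀ i, 0 < c i) {Z W : ∀ i, Matrix (X i) (X i) ℂ} (h : Eqv F c Z W) (t : ℂ) :
    Eqv F c (fun i => t • Z i) (fun i => t • W i) := by
  refine Eqv.of_le (fun i => ‖t‖ ^ 2 * (hs (Z i - W i) / c i)) ?_ hc ?_
  · simpa using h.const_mul (‖t‖ ^ 2)
  · intro i
    rw [← smul_sub, hs_smul, mul_div_assoc]

/-- varying coefficients -/
theorem Eqv.coef (hc : ∀ i, 0 < c i) {Z : ∀ i, Matrix (X i) (X i) ℂ} {C : ℝ}
    (hZ : ∀ i, hs (Z i) ≤ C * c i) {t : I → ℂ} {t₀ : ℂ} (ht : Tendsto t F (𝓝 t₀)) :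
    Eqv F c (fun i => t i • Z i) (fun i => t₀ • Z i) := by
  refine Eqv.of_le (fun i => ‖t i - t₀‖ ^ 2 * C) ?_ hc ?_
  · have h1 : Tendsto (fun i => ‖t i - t₀‖) F (𝓝 0) := by
      have := (ht.sub_const t₀).norm
      simpa using this
    simpa using (h1.pow 2).mul_const C
  · intro i
    rw [← sub_smul, hs_smul, mul_div_assoc]
    refine mul_le_mul_of_nonneg_left ?_ (by positivity)
    rw [div_le_iff₀ (hc i)]
    exact hZ i

/-- the norm is continuous -/
theorem Eqv.lim (hc : ∀ i, 0 < c i) {Z W : ∀ i, Matrix (X i) (X i) ℂ} (h : Eqv F c Z W) {L : ℝ}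
    (hZ : Tendsto (fun i => hs (Z i) / c i) F (𝓝 L)) : Tendsto (fun i => hs (W i) / c i) F (𝓝 L) := by
  have h1 : Tendsto (fun i => √(hs (Z i) / c i)) F (𝓝 (√L)) :=
    (Real.continuous_sqrt.tendsto L).comp hZ
  have h2 : Tendsto (fun i => √(hs (Z i - W i) / c i)) F (𝓝 0) := by
    have := (Real.continuous_sqrt.tendsto 0).comp h
    rw [Real.sqrt_zero] at this
    exact this
  have h3 : Tendsto (fun i => √(hs (W i) / c i)) F (𝓝 (√L)) := by
    have h4 : Tendsto (fun i => √(hs (W i) / c i) - √(hs (Z i) / c i)) F (𝓝 0) := by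
      refine squeeze_zero_norm (a := fun i => √(hs (Z i - W i) / c i)) (fun i => ?_) h2
      rw [Real.norm_eq_abs, Real.sqrt_div (hs_nonneg _), Real.sqrt_div (hs_nonneg _),
        Real.sqrt_div (hs_nonneg _), ← sub_div, abs_div, abs_of_pos (Real.sqrt_pos.2 (hc i))]
      refine div_le_div_of_nonneg_right ?_ (Real.sqrt_nonneg _)
      rw [hs_sub_comm]
      exact abs_sqrt_hs_sub_le _ _
    have := h1.add h4
    simpa using this
  have hL : 0 ≤ L ∨ F = ⊥ := by
    by_cases hF : F = ⊥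
    · exact Or.inr hF
    · have : F.NeBot := ⟨hF⟩
      exact Or.inl (ge_of_tendsto' hZ fun i => div_nonneg (hs_nonneg _) (hc i).le)
  rcases hL with hL | hL
  · have h5 := h3.pow 2
    rw [Real.sq_sqrt hL] at h5
    refine h5.congr fun i => ?_
    rw [Real.sq_sqrt (div_nonneg (hs_nonneg _) (hc i).le)]
  · rw [hL]
    exact tendsto_bot

end eqv

section asrep

variable {H : Type} [NormedAddCommGroup H] [InnerProductSpace ℂ H] [CompleteSpace H]
  {A : VonNeumannAlgebra H} {ξ : H} (R : AsRep A ξ)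

theorem AsRep.cpos (i : R.I) : (0 : ℝ) < R.n i := by exact_mod_cast R.pos i

theorem AsRep.hs_le {x : Op H} (hx : x ∈ A) :
    ∃ C : ℝ, 0 ≤ C ∧ ∀ i, hs (R.Ψ i x) ≤ C * R.n i := by
  obtain ⟨C, hC⟩ := R.bdd x hx
  refine ⟨|C|, abs_nonneg _, fun i => ?_⟩
  have h := (hC i 1).1
  rw [Matrix.mul_one, hs_one, Fintype.card_fin] at h
  exact h.trans (mul_le_mul_of_nonneg_right (le_abs_self _) (Nat.cast_nonneg _))

theorem AsRep.zero (hA : (0 : Op H) ∈ A) :
    Eqv R.F (fun i => (R.n i : ℝ)) (fun i => R.Ψ i 0) (fun _ => 0) := by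
  have h := R.smul 0 0 hA
  have e : (fun i => hs (R.Ψ i ((0 : ℂ) • (0 : Op H)) - (0 : ℂ) • R.Ψ i 0) / (R.n i : ℝ)) =
      fun i => hs (R.Ψ i 0 - 0) / (R.n i : ℝ) := by
    funext i
    rw [smul_zero, zero_smul]
  rw [e] at h
  exact h

theorem AsRep.sum {ι : Type*} (s : Finset ι) (t : ι → ℂ) (x : ι → Op H) (hx : ∀ k ∈ s, x k ∈ A) :
    Eqv R.F (fun i => (R.n i : ℝ)) (fun i => R.Ψ i (∑ k ∈ s, t k • x k))
      (fun i => ∑ k ∈ s, t k • R.Ψ i (x k)) := by
  classical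
  induction s using Finset.induction_on with
  | empty =>
    simp only [Finset.sum_empty]
    exact R.zero (zero_mem A)
  | insert a s ha ih =>
    simp only [Finset.sum_insert ha]
    have h1 : t a • x a ∈ A :=
      A.toStarSubalgebra.smul_mem (hx a (Finset.mem_insert_self _ _)) _
    have h2 : ∑ k ∈ s, t k • x k ∈ A :=
      sum_mem fun k hk => A.toStarSubalgebra.smul_mem (hx k (Finset.mem_insert_of_mem hk)) _
    have h3 : Eqv R.F (fun i => (R.n i : ℝ)) (fun i => R.Ψ i (t a • x a + ∑ k ∈ s, t k • x k))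
      (fun i => R.Ψ i (t a • x a) + R.Ψ i (∑ k ∈ s, t k • x k)) := R.add _ h1 _ h2
    have h4 : Eqv R.F (fun i => (R.n i : ℝ)) (fun i => R.Ψ i (t a • x a))
      (fun i => t a • R.Ψ i (x a)) := R.smul _ _ (hx a (Finset.mem_insert_self _ _))
    exact h3.trans R.cpos (h4.add R.cpos (ih fun k hk => hx k (Finset.mem_insert_of_mem hk)))

/-- inner products -/
theorem AsRep.inner_lim {x y : Op H} (hx : x ∈ A) (hy : y ∈ A) :
    Tendsto (fun i => Matrix.trace ((R.Ψ i x)ᴴ * R.Ψ i y) / (R.n i : ℂ)) R.F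
      (𝓝 (tr ξ (Star.star x * y))) := by
  obtain ⟨C, hC⟩ := R.bdd y hy
  have h1 : Eqv R.F (fun i => (R.n i : ℝ)) (fun i => R.Ψ i (Star.star x * y))
      (fun i => R.Ψ i (Star.star x) * R.Ψ i y) := R.mul _ (star_mem hx) _ hy
  have h2 : Eqv R.F (fun i => (R.n i : ℝ)) (fun i => R.Ψ i (Star.star x) * R.Ψ i y)
      (fun i => (R.Ψ i x)ᴴ * R.Ψ i y) := by
    refine Eqv.of_le (fun i => C * (hs (R.Ψ i (Star.star x) - (R.Ψ i x)ᴴ) / R.n i)) ?_ R.cpos ?_
    · simpa using (R.star x hx).const_mul C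
    · intro i
      rw [← Matrix.sub_mul, ← mul_div_assoc]
      exact div_le_div_of_nonneg_right (hC i _).2 (R.cpos i).le
  have h3 := h1.trans R.cpos h2
  have h4 : Tendsto (fun i => Matrix.trace (R.Ψ i (Star.star x * y)) / (R.n i : ℂ) -
      Matrix.trace ((R.Ψ i x)ᴴ * R.Ψ i y) / (R.n i : ℂ)) R.F (𝓝 0) := by
    have h5 : Tendsto (fun i => √(hs (R.Ψ i (Star.star x * y) - (R.Ψ i x)ᴴ * R.Ψ i y) / R.n i)) R.F
        (𝓝 0) := by
      have := (Real.continuous_sqrt.tendsto 0).comp h3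
      rw [Real.sqrt_zero] at this
      exact this
    refine squeeze_zero_norm (fun i => ?_) h5
    rw [← sub_div, norm_div, ← Matrix.trace_sub, Complex.norm_natCast]
    rw [div_le_iff₀ (R.cpos i), Real.sqrt_div (hs_nonneg _)]
    refine (norm_trace_le' _).trans (le_of_eq ?_)
    rw [Fintype.card_fin]
    have h6 : √(R.n i : ℝ) * √(R.n i : ℝ) = R.n i := Real.mul_self_sqrt (Nat.cast_nonneg _)
    have h7 : √(R.n i : ℝ) ≠ 0 := (Real.sqrt_pos.2 (R.cpos i)).ne'
    field_simp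
    rw [sq, h6]
    ring
  have h5 := (R.trace _ (mul_mem (star_mem hx) hy)).sub h4
  simpa using h5

theorem AsRep.hs_lim {x : Op H} (hx : x ∈ A) :
    Tendsto (fun i => hs (R.Ψ i x) / (R.n i : ℝ)) R.F (𝓝 (‖x ξ‖ ^ 2)) := by
  have h := (Complex.continuous_re.tendsto _).comp (R.inner_lim hx hx)
  have e : (tr ξ (Star.star x * x)).re = ‖x ξ‖ ^ 2 := by
    unfold Pool.Agent.N557.QWX.tr
    show (inner ℂ ξ (Star.star x (x ξ))).re = _
    rw [ContinuousLinearMap.star_eq_adjoint, ContinuousLinearMap.adjoint_inner_right,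
      inner_self_eq_norm_sq_to_K]
    norm_cast
  rw [e] at h
  refine h.congr fun i => ?_
  show (Matrix.trace ((R.Ψ i x)ᴴ * R.Ψ i x) / (R.n i : ℂ)).re = _
  rw [Pool.Agent.W683.RC.trace_conjTranspose_mul_self]
  norm_cast

end asrep

end

end Pool.Agent.P8H72.RE
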