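import Pool.Agent.P8H72.RE.Eqv
import Pool.Agent.P8H66.RE.Pol
import Pool.Agent.P8H38.RE.NetCore
import Pool.Agent.N225.AS.Main

/-!
# Project RE, package EXN (helper72): exact matrix units
-/

set_option autoImplicit false

open scoped Topology InnerProductSpace Kronecker ComplexOrder
open Filter Matrix

namespace Pool.Agent.P8H72.RE

open Pool.Agent.N557.QWX (Op tr IsTracial IsHom)
open Pool.Agent.N859.QX (QWEP)
open Pool.Agent.W661.RC (hs HasT Le)
open Pool.Agent.W683.RC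
open Pool.Agent.P8H38.RE (Null)

section null

variable {I : Type} {F : Filter I} {n : I → ℕ}

theorem Null.bdl {X Y : ∀ i, Matrix (Fin (n i)) (Fin (n i)) ℂ} (hX : Null F n X) {C : ℝ}
    (hY : ∀ i, Bd C (Y i)) : Null F n (fun i => Y i * X i) :=
  hX.of_le C fun i => (hY i (X i)).1

theorem Null.bdr {X Y : ∀ i, Matrix (Fin (n i)) (Fin (n i)) ℂ} (hX : Null F n X) {C : ℝ}
    (hY : ∀ i, Bd C (Y i)) : Null F n (fun i => X i * Y i) :=
  hX.of_le C fun i => (hY i (X i)).2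

theorem Bd.unitary {m : ℕ} (U : unitaryGroup (Fin m) ℂ) : Bd 1 (U : Matrix (Fin m) (Fin m) ℂ) := by
  intro W
  rw [one_mul]
  have h1 : (U.1)ᴴ * U.1 = 1 := (Matrix.mem_unitaryGroup_iff').1 U.2
  have h2 : U.1 * (U.1)ᴴ = 1 := (Matrix.mem_unitaryGroup_iff).1 U.2
  constructor
  · rw [hs_eq, hs_eq, Matrix.conjTranspose_mul, Matrix.mul_assoc, ← Matrix.mul_assoc _ U.1 W, h1,
      Matrix.one_mul]
  · rw [hs_eq', hs_eq', Matrix.conjTranspose_mul, Matrix.mul_assoc, ← Matrix.mul_assoc U.1 _ _, h2,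
      Matrix.one_mul]

end null

open Pool.Agent.H698R3.Amalg (fn) in
theorem fn_eq {X Y : Type} [Fintype X] [Fintype Y] (A : Matrix X Y ℂ) : fn A = √(hs A) := rfl

/-- EXN -/
theorem t_EXN (hNET : S_NET) (hCYC : S_CYC) (hPOL : S_POL) : S_EXN := by
  intro H _ _ _ A ξ hA hq L d ι hι
  classical
  obtain ⟨R⟩ := hNET H A ξ hA hq
  obtain ⟨𝒢, _, _, ρ, c, hc, hMU⟩ := hCYC L d
  have : R.F.NeBot := R.ne
  set x : 𝒢 → Op H := fun g => ι (ρ g : ∀ l, Matrix (Fin (d l)) (Fin (d l)) ℂ) with hx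
  have hxA : ∀ g, x g ∈ A := fun g => hι _
  have hxmul : ∀ g h, x (g * h) = x g * x h := by
    intro g h
    simp only [hx, map_mul, Submonoid.coe_mul]
  have hxu : ∀ g, star (x g) * x g = 1 := by
    intro g
    simp only [hx]
    rw [← map_star, ← map_mul, Unitary.coe_star_mul_self, map_one]
  -- the unitary part
  have h1 : ∀ g, Null R.F R.n (fun i => (R.Ψ i (x g))ᴴ * R.Ψ i (x g) - 1) := by
    intro g
    obtain ⟨C, hC⟩ := R.bdd (x g) (hxA g)
    have hst : star (x g) ∈ A := star_mem (S := VonNeumannAlgebra H) (s := A) (hxA g)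
    have a1 : Null R.F R.n (fun i => R.Ψ i (star (x g) * x g) - R.Ψ i (star (x g)) * R.Ψ i (x g)) :=
      R.mul _ hst _ (hxA g)
    have a2 : Null R.F R.n (fun i => (R.Ψ i (star (x g)) - (R.Ψ i (x g))ᴴ) * R.Ψ i (x g)) :=
      Null.bdr (R.star _ (hxA g)) hC
    have a3 : Null R.F R.n (fun i => R.Ψ i 1 - 1) := R.one
    refine ((a3.sub a1).sub a2).congr fun i => ?_
    rw [hxu g, Matrix.sub_mul]
    abel
  choose U hU using fun (g : 𝒢) (i : R.I) => hPOL (Fin (R.n i)) (R.Ψ i (x g))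
  have h2 : ∀ g, Null R.F R.n (fun i => R.Ψ i (x g) - (U g i).1) := by
    intro g
    exact (h1 g).of_le 1 fun i => by rw [one_mul]; exact hU g i
  have h3 : ∀ g h, Null R.F R.n (fun i => (U g i).1 * (U h i).1 -
      (U (g * h) i).1) := by
    intro g h
    obtain ⟨C, hC⟩ := R.bdd (x g) (hxA g)
    have a1 : Null R.F R.n (fun i => R.Ψ i (x g * x h) - R.Ψ i (x g) * R.Ψ i (x h)) :=
      R.mul _ (hxA g) _ (hxA h)
    have a2 : Null R.F R.n (fun i => (R.Ψ i (x g) - (U g i).1) * (U h i).1) :=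
      Null.bdr (h2 g) (C := 1) (fun i => Bd.unitary _)
    have a3 : Null R.F R.n (fun i => R.Ψ i (x g) * (R.Ψ i (x h) - (U h i).1)) :=
      Null.bdl (h2 h) hC
    have a4 := h2 (g * h)
    refine (((a4.sub a1).sub a2).sub a3).congr fun i => ?_
    rw [hxmul, Matrix.sub_mul, Matrix.mul_sub]
    abel
  -- the defects
  set δ : R.I → ℝ := fun i => √(∑ g, ∑ h, hs ((U g i).1 * (U h i).1 -
      (U (g * h) i).1) / R.n i) with hδ
  have hδ0 : ∀ i, 0 ≤ δ i := fun i => Real.sqrt_nonneg _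
  have hδt : Tendsto δ R.F (𝓝 0) := by
    have e : Tendsto (fun i => ∑ g, ∑ h, hs ((U g i).1 * (U h i).1 -
      (U (g * h) i).1) / R.n i) R.F (𝓝 (∑ g : 𝒢, ∑ h : 𝒢, 0)) :=
      tendsto_finset_sum _ fun g _ => tendsto_finset_sum _ fun h _ => h3 g h
    have := e.sqrt
    simpa using this
  have hstep : ∀ i, ∃ ψ : 𝒢 →* unitaryGroup (Fin (R.n i)) ℂ, ∀ g,
      √(hs ((U g i).1 - (ψ g).1)) ≤
        (2 * √(8 * δ i * (Fintype.card 𝒢 + 1)) + δ i) * √(R.n i) := by
    intro i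
    have hn : (0 : ℝ) < R.n i := by exact_mod_cast R.pos i
    obtain ⟨ψ, hψ⟩ := Pool.Agent.N225.AS.hs_step (fun g => U g i) (δ i) (hδ0 i) (by
      intro a b
      rw [fn_eq, Fintype.card_fin]
      rw [← Real.sqrt_mul' _ hn.le]
      refine Real.sqrt_le_sqrt ?_
      have h5 : hs ((U a i).1 * (U b i).1 -
          (U (a * b) i).1) / R.n i ≤
          ∑ g, ∑ h, hs ((U g i).1 * (U h i).1 -
            (U (g * h) i).1) / R.n i := by
        refine le_trans ?_ (Finset.single_le_sum (f := fun g => ∑ h, hs ((U g i).1 *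
          (U h i).1 - (U (g * h) i).1) / (R.n i : ℝ)) (fun g _ =>
          Finset.sum_nonneg fun h _ => div_nonneg (hs_nonneg _) hn.le) (Finset.mem_univ a))
        exact Finset.single_le_sum (f := fun h => hs ((U a i).1 *
          (U h i).1 - (U (a * h) i).1) / (R.n i : ℝ)) (fun h _ =>
          div_nonneg (hs_nonneg _) hn.le) (Finset.mem_univ b)
      rw [div_le_iff₀ hn] at h5
      exact h5)
    refine ⟨ψ, fun g => ?_⟩
    have := hψ g
    rw [fn_eq, Fintype.card_fin] at this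
    exact this
  choose ψ hψ using hstep
  have h4 : ∀ g, Null R.F R.n (fun i => (U g i).1 - (ψ i g).1) := by
    intro g
    have e : Tendsto (fun i => (2 * √(8 * δ i * (Fintype.card 𝒢 + 1)) + δ i) ^ 2) R.F (𝓝 0) := by
      have e1 : Tendsto (fun i => 8 * δ i * (Fintype.card 𝒢 + 1)) R.F (𝓝 (8 * 0 * (Fintype.card 𝒢 + 1))) :=
        (hδt.const_mul 8).mul_const _
      have e2 := ((e1.sqrt.const_mul 2).add hδt).pow 2
      simpa using e2
    refine squeeze_zero (fun i => div_nonneg (hs_nonneg _) (Nat.cast_nonneg _)) (fun i => ?_) e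
    have hn : (0 : ℝ) < R.n i := by exact_mod_cast R.pos i
    rw [div_le_iff₀ hn]
    have h6 := hψ i g
    have h7 : hs ((U g i).1 - (ψ i g).1) =
        √(hs ((U g i).1 - (ψ i g).1)) ^ 2 :=
      (Real.sq_sqrt (hs_nonneg _)).symm
    rw [h7]
    calc √(hs ((U g i).1 - (ψ i g).1)) ^ 2
        ≤ ((2 * √(8 * δ i * (Fintype.card 𝒢 + 1)) + δ i) * √(R.n i)) ^ 2 :=
          pow_le_pow_left₀ (Real.sqrt_nonneg _) h6 2
      _ = (2 * √(8 * δ i * (Fintype.card 𝒢 + 1)) + δ i) ^ 2 * R.n i := by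
          rw [mul_pow, Real.sq_sqrt hn.le]
  refine ⟨R, fun i l a b => ∑ g, c l a b g • (ψ i g : Matrix (Fin (R.n i)) (Fin (R.n i)) ℂ),
    fun i => hMU _ (ψ i), fun l a b => ?_⟩
  have h8 : ι (Pi.single l (Matrix.single a b 1)) = ∑ g, c l a b g • x g := by
    rw [← hc l a b, map_sum]
    refine Finset.sum_congr rfl fun g _ => ?_
    rw [map_smul]
  have h9 : Null R.F R.n (fun i => R.Ψ i (∑ g, c l a b g • x g) - ∑ g, c l a b g • R.Ψ i (x g)) :=
    R.sum Finset.univ (c l a b) x fun g _ => hxA g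
  have h10 : Null R.F R.n (fun i => ∑ g, c l a b g • ((R.Ψ i (x g) - (U g i).1) +
      ((U g i).1 - (ψ i g).1))) :=
    Pool.Agent.P8H38.RE.Null.sum Finset.univ fun g _ => ((h2 g).add (h4 g)).smul _
  rw [h8]
  refine ((h9.add h10).neg).congr fun i => ?_
  simp only [sub_add_sub_cancel, smul_sub, Finset.sum_sub_distrib]
  abel

end Pool.Agent.P8H72.RE
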