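import Pool.Agent.P8H72.RE.Asm

/-!
# Project RE: the final statement
-/

set_option autoImplicit false

open scoped Topology InnerProductSpace
open Filter

namespace Pool.Agent.P8H72.RE

open Pool.Agent.N557.QWX (Op tr IsTracial IsHom)
open Pool.Agent.N859.QX (QWEP)
open Pool.Agent.N557.QW (RF lam LG lam_mem star_lam lam_one lam_mul lam_dl)
open Pool.Agent.H494R3.GT (L2 dl vec_ext op_ext UU UU_apply inner_dl dl_apply_ne)

section defs

variable {H K L E : Type} [NormedAddCommGroup H] [InnerProductSpace ℂ H] [CompleteSpace H]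
  [NormedAddCommGroup K] [InnerProductSpace ℂ K] [CompleteSpace K]
  [NormedAddCommGroup L] [InnerProductSpace ℂ L] [CompleteSpace L]
  [NormedAddCommGroup E] [InnerProductSpace ℂ E] [CompleteSpace E]

/-- `M`, with the trace `⟨ξ, · ξ⟩`, is the group von Neumann algebra `L(G)` with its canonical trace:
the `u g` are unitaries with `u (g h) = u g u h`, they generate `M`, and `τ(u g) = 0` for `g ≠ 1`. -/
structure IsGroupAlgebra {G : Type} [Group G] (M : VonNeumannAlgebra H) (ξ : H) (u : G → Op H) :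
    Prop where
  tracial : IsTracial M ξ
  one : u 1 = 1
  mul : ∀ g h, u (g * h) = u g * u h
  star : ∀ g, star (u g) = u g⁻¹
  gen : GeneratedBy M (Set.range u)
  trace : ∀ g, g ≠ 1 → tr ξ (u g) = 0

/-- One term of the sequence in the definition of relative embeddability over the tracial von Neumann
algebra `(N₁, ⟨ζ, · ζ⟩)`: a QWEP finite von Neumann algebra `A` with a hyperfinite von Neumann
subalgebra `B`, the tensor product `T` of `A` and `N₁` (with the embeddings `a` and `b` of `A` and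
`N₁`), and its subalgebra `S`, the tensor product of `B` and `N₁`. -/
structure IsLevel (N₁ : VonNeumannAlgebra K) (ζ : K) (A B : VonNeumannAlgebra L) (ξ : L)
    (T S : VonNeumannAlgebra E) (η : E) (a : Op L → Op E) (b : Op K → Op E) : Prop where
  tracial : IsTracial A ξ
  qwep : QWEP A
  le : B ≤ A
  hyperfinite : IsHyperfinite B ξ
  tensor : IsTensor A ξ N₁ ζ T η a b
  gen : GeneratedBy S ({z | ∃ x ∈ B, z = a x} ∪ {z | ∃ y ∈ N₁, z = b y})

end defs

section seq

variable {H K : Type} [NormedAddCommGroup H] [InnerProductSpace ℂ H] [CompleteSpace H]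
  [NormedAddCommGroup K] [InnerProductSpace ℂ K] [CompleteSpace K]
  {E : ℕ → Type} [∀ k, NormedAddCommGroup (E k)] [∀ k, InnerProductSpace ℂ (E k)]
  [∀ k, CompleteSpace (E k)]

/-- The sequence `X k` of operators tends to `0` in the 2-norms `‖X η k‖` along the ultrafilter `ω`:
if it is a bounded sequence in the algebras `(T k, ⟨η k, · η k⟩)`, it represents the zero element of
their tracial ultraproduct. -/
def Vanishes (ω : Ultrafilter ℕ) (η : ∀ k, E k) (X : ∀ k, Op (E k)) : Prop :=
  Tendsto (fun k => ‖X k (η k)‖) ω (𝓝 0)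

/-- `π` is a tracial embedding of the tracial von Neumann algebra `(M, ⟨ξ, · ξ⟩)` into the tracial
ultraproduct of the tracial von Neumann algebras `(T k, ⟨η k, · η k⟩)`. The elements of the
ultraproduct are given by bounded sequences `X k ∈ T k`; two sequences define the same element if
the difference tends to `0` in the 2-norm along `ω`. -/
structure IsTracialEmbedding (M : VonNeumannAlgebra H) (ξ : H) (ω : Ultrafilter ℕ)
    (T : ∀ k, VonNeumannAlgebra (E k)) (η : ∀ k, E k) (π : Op H → ∀ k, Op (E k)) : Prop where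
  mem : ∀ x ∈ M, ∀ k, π x k ∈ T k
  bdd : ∀ x ∈ M, ∃ C : ℝ, ∀ k, ‖π x k‖ ≤ C
  one : Vanishes ω η (fun k => π 1 k - 1)
  add : ∀ x ∈ M, ∀ y ∈ M, Vanishes ω η (fun k => π (x + y) k - (π x k + π y k))
  smul : ∀ c : ℂ, ∀ x ∈ M, Vanishes ω η (fun k => π (c • x) k - c • π x k)
  mul : ∀ x ∈ M, ∀ y ∈ M, Vanishes ω η (fun k => π (x * y) k - π x k * π y k)
  star : ∀ x ∈ M, Vanishes ω η (fun k => π (star x) k - star (π x k))
  trace : ∀ x ∈ M, Tendsto (fun k => tr (η k) (π x k)) ω (𝓝 (tr ξ x))

/-- `π` maps `N` into the ultraproduct of the `S k ⊆ T k`, and the commuting square condition holds: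
the conditional expectation onto the ultraproduct of the `S k` maps `π x` to `π (E_N x)` for all `x`
in `M`. -/
structure IsCommutingSquare (M N : VonNeumannAlgebra H) (ξ : H) (ω : Ultrafilter ℕ)
    (S : ∀ k, VonNeumannAlgebra (E k)) (η : ∀ k, E k) (π : Op H → ∀ k, Op (E k)) : Prop where
  sub : ∀ x ∈ N, ∃ y : ∀ k, Op (E k), (∀ k, y k ∈ S k) ∧ (∃ C : ℝ, ∀ k, ‖y k‖ ≤ C) ∧
    Vanishes ω η (fun k => π x k - y k)
  square : ∀ x ∈ M, ∀ e, IsExp N ξ x e →
    Tendsto (fun k => ‖eQ (S k) (η k) (π x k (η k)) - π e k (η k)‖) ω (𝓝 0)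

/-- The inclusion `N ⊆ M` of finite von Neumann algebras (with the trace `⟨ξ, · ξ⟩`) is RE/`N₁`, for
the finite von Neumann algebra `(N₁, ⟨ζ, · ζ⟩)`. -/
inductive RelativelyEmbeddable (M N : VonNeumannAlgebra H) (ξ : H) (N₁ : VonNeumannAlgebra K)
    (ζ : K) : Prop
  | mk (ω : Ultrafilter ℕ) (L : ℕ → Type) [∀ k, NormedAddCommGroup (L k)]
      [∀ k, InnerProductSpace ℂ (L k)] [∀ k, CompleteSpace (L k)]
      (E : ℕ → Type) [∀ k, NormedAddCommGroup (E k)] [∀ k, InnerProductSpace ℂ (E k)]
      [∀ k, CompleteSpace (E k)] (A B : ∀ k, VonNeumannAlgebra (L k)) (χ : ∀ k, L k)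
      (T S : ∀ k, VonNeumannAlgebra (E k)) (η : ∀ k, E k) (a : ∀ k, Op (L k) → Op (E k))
      (b : ∀ k, Op K → Op (E k)) (π : Op H → ∀ k, Op (E k))
      (level : ∀ k, IsLevel N₁ ζ (A k) (B k) (χ k) (T k) (S k) (η k) (a k) (b k))
      (embedding : IsTracialEmbedding M ξ ω T η π)
      (square : IsCommutingSquare M N ξ ω S η π) : RelativelyEmbeddable M N ξ N₁ ζ

theorem isRE_of {M N : VonNeumannAlgebra H} {ξ : H} {N₁ : VonNeumannAlgebra K} {ζ : K}
    (h : RelativelyEmbeddable M N ξ N₁ ζ) : IsRE M N ξ N₁ ζ := by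
  obtain ⟨ω, L, E, A, B, χ, T, S, η, a, b, π, hl, he, hs⟩ := h
  exact ⟨{
    ω := ω
    lv := fun k => {
      H := L k
      E := E k
      A := A k
      B := B k
      ξ := χ k
      T := T k
      S := S k
      η := η k
      a := a k
      b := b k
      tracial := (hl k).tracial
      qwep := (hl k).qwep
      le := (hl k).le
      hyperfinite := (hl k).hyperfinite
      tensor := (hl k).tensor
      gen := (hl k).gen }
    π := π
    mem := he.mem
    bdd := he.bdd
    one := he.one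
    add := he.add
    smul := he.smul
    mul := he.mul
    star := he.star
    trace := he.trace
    sub := hs.sub
    square := hs.square }⟩

end seq

theorem isGroupAlgebra_LG (G : Type) [Group G] :
    IsGroupAlgebra (LG G) (dl (1 : G)) (lam : G → Op (L2 G)) where
  tracial := tracial_LG G
  one := lam_one
  mul := lam_mul
  star := star_lam
  gen := generated_LG
  trace g hg := by
    rw [tr, lam_dl, mul_one, inner_dl]
    exact dl_apply_ne (Ne.symm hg)

/-- The final statement, from the packages. -/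
theorem final (hGRP : S_GRP) (hEXTR : S_EXTR) (hMID : S_MID) (hMODEL : S_MODEL) (hFINL : S_FINL) :
    ∃ (Γ : Type) (_ : Group Γ) (H : Subgroup Γ), Countable Γ ∧ CoAmenable H ∧
      ∃ (E : Type) (_ : NormedAddCommGroup E) (_ : InnerProductSpace ℂ E) (_ : CompleteSpace E)
        (M N : VonNeumannAlgebra E) (ξ : E) (u : Γ → Op E),
        IsGroupAlgebra M ξ u ∧ GeneratedBy N {z | ∃ h ∈ H, z = u h} ∧
        (∃ (K : Type) (_ : NormedAddCommGroup K) (_ : InnerProductSpace ℂ K) (_ : CompleteSpace K)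
          (N₁ : VonNeumannAlgebra K) (ζ : K) (v : H → Op K),
          IsGroupAlgebra N₁ ζ v ∧ QWEP N₁ ∧ ¬ RelativelyEmbeddable M N ξ N₁ ζ) ∧
        ∀ (K : Type) [NormedAddCommGroup K] [InnerProductSpace ℂ K] [CompleteSpace K]
          (N' : VonNeumannAlgebra K) (ζ : K), IsTracial N' ζ → QWEP N' →
          ¬ RelativelyEmbeddable M N ξ N' ζ := by
  obtain ⟨Γ, _, H, hΓ, hco, hRF, hall⟩ := asm hGRP hEXTR hMID hMODEL hFINL
  refine ⟨Γ, inferInstance, H, hΓ, hco, L2 Γ, inferInstance, inferInstance, inferInstance, LG Γ,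
    vn {z | ∃ h ∈ H, z = lam h}, dl 1, lam, isGroupAlgebra_LG Γ, generated_vn _,
    ⟨L2 H, inferInstance, inferInstance, inferInstance, LG H, dl 1, lam, isGroupAlgebra_LG H,
      qwep_of_RF hRF, fun h => ?_⟩, fun K _ _ _ N' ζ h1 h2 h => ?_⟩
  · exact hall _ _ generated_LG (generated_vn _) _ _ _ (tracial_LG H) (qwep_of_RF hRF) (isRE_of h)
  · exact hall _ _ generated_LG (generated_vn _) _ _ _ h1 h2 (isRE_of h)

end Pool.Agent.P8H72.RE
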