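import Pool.Agent.P8H72.RE.Fin
import Pool.Agent.P8H16.RE.Dix
import Pool.Agent.P8H16.RE.Cs
import Pool.Agent.P8H76.RE.Mid
import Pool.Agent.P8H76.RE.Tsq
import Pool.Agent.P8H7.RE.Mta
import Pool.Agent.P8H53.RE.Mtb
import Pool.Agent.P8H38.RE.Net
import Pool.Agent.P8H66.RE.Pol
import Pool.Agent.P8H66.RE.Ten
import Pool.Agent.P8H66.RE.Kap
import Pool.Agent.P8H5.RE.Grp
import Pool.Agent.P8H5.RE.Fmx
import Pool.Agent.P8H81.RE.Extr
import Pool.Agent.P8H97.RE.Finl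
import Pool.Agent.P8H97.RE.Tel
import Pool.Agent.P8H97.RE.Cyc
import Pool.Agent.P8H72.RE.Exn

/-!
# Relative embeddability over co-amenable subgroups: the packages together
-/

set_option autoImplicit false

namespace Pool.Agent.P8H72.RE

theorem net : S_NET := Pool.Agent.P8H38.RE.t_NET Pool.Agent.P8H7.RE.t_MTA Pool.Agent.P8H53.RE.t_MTB

theorem exn : S_EXN := t_EXN net Pool.Agent.P8H97.RE.t_CYC Pool.Agent.P8H66.RE.t_POL

theorem model : S_MODEL :=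
  t_MODEL exn net Pool.Agent.P8H66.RE.t_TEN Pool.Agent.P8H16.RE.t_CS Pool.Agent.P8H76.RE.t_TSQ

theorem mid : S_MID := Pool.Agent.P8H76.RE.t_MID Pool.Agent.P8H66.RE.t_KAP

theorem grp : S_GRP := Pool.Agent.P8H5.RE.t_GRP

theorem extr : S_EXTR := Pool.Agent.P8H81.RE.t_EXTR

theorem finl : S_FINL := Pool.Agent.P8H97.RE.t_FINL
  (Pool.Agent.P8H5.RE.t_FMX Pool.Agent.N52.ST.fm_main) Pool.Agent.P8H16.RE.t_DIX
  Pool.Agent.P8H66.RE.t_POL Pool.Agent.P8H97.RE.t_TEL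

end Pool.Agent.P8H72.RE
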