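import Pool.Agent.P8H72.RE.Eqv

/-!
# Partial traces of asymptotic tensor products
-/

set_option autoImplicit false

open scoped Topology InnerProductSpace Kronecker ComplexOrder
open Filter Matrix

namespace Pool.Agent.P8H72.RE

open Pool.Agent.N557.QWX (Op tr IsTracial IsHom)
open Pool.Agent.W661.RC (hs IsPr)
open Pool.Agent.W683.RC (hs_nonneg hs_add_le hs_sub_le hs_sub_comm hs_smul hs_eq hs_zero
  hs_conjTranspose norm_trace_le sqrt_hs_add_le abs_sqrt_hs_sub_le hs_sum_le hs_pr_mul_le_self)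

noncomputable section

theorem ptr_sub {n m : ℕ} (X Y : Matrix (Fin n × Fin m) (Fin n × Fin m) ℂ) :
    ptr (X - Y) = ptr X - ptr Y := by
  ext i j
  simp only [ptr, Matrix.sub_apply, Finset.sum_sub_distrib]

theorem ptr_sum {n m : ℕ} {ι : Type*} (s : Finset ι)
    (X : ι → Matrix (Fin n × Fin m) (Fin n × Fin m) ℂ) :
    ptr (∑ k ∈ s, X k) = ∑ k ∈ s, ptr (X k) := by
  ext i j
  simp only [ptr, Matrix.sum_apply]
  rw [Finset.sum_comm]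

theorem ptr_kron {n m : ℕ} (A : Matrix (Fin n) (Fin n) ℂ) (B : Matrix (Fin m) (Fin m) ℂ) :
    ptr (A ⊗ₖ B) = Matrix.trace A • B := by
  ext i j
  simp only [ptr, kroneckerMap_apply, Matrix.smul_apply, smul_eq_mul, Matrix.trace, Matrix.diag,
    Finset.sum_mul]

theorem hs_ptr {n m : ℕ} (X : Matrix (Fin n × Fin m) (Fin n × Fin m) ℂ) :
    hs (ptr X) ≤ n * hs X := by
  have h1 : hs (ptr X) ≤ ∑ i : Fin m, ∑ j : Fin m, (n : ℝ) * ∑ k : Fin n, ‖X (k, i) (k, j)‖ ^ 2 := by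
    refine Finset.sum_le_sum fun i _ => Finset.sum_le_sum fun j _ => ?_
    show ‖∑ k, X (k, i) (k, j)‖ ^ 2 ≤ _
    have h2 : ‖∑ k, X (k, i) (k, j)‖ ≤ ∑ k, ‖X (k, i) (k, j)‖ := norm_sum_le _ _
    have h3 : ‖∑ k, X (k, i) (k, j)‖ ^ 2 ≤ (∑ k, ‖X (k, i) (k, j)‖) ^ 2 :=
      pow_le_pow_left₀ (norm_nonneg _) h2 2
    refine h3.trans ((sq_sum_le_card_mul_sum_sq).trans (le_of_eq ?_))
    rw [Finset.card_univ, Fintype.card_fin]
  refine h1.trans ?_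
  simp only [← Finset.mul_sum]
  refine mul_le_mul_of_nonneg_left ?_ (Nat.cast_nonneg _)
  have h4 : hs X = ∑ k : Fin n, ∑ i : Fin m, ∑ k' : Fin n, ∑ j : Fin m, ‖X (k, i) (k', j)‖ ^ 2 := by
    show ∑ x, ∑ y, ‖X x y‖ ^ 2 = _
    rw [Fintype.sum_prod_type]
    refine Finset.sum_congr rfl fun k _ => Finset.sum_congr rfl fun i _ => ?_
    rw [Fintype.sum_prod_type]
  rw [h4]
  calc ∑ i : Fin m, ∑ j : Fin m, ∑ k : Fin n, ‖X (k, i) (k, j)‖ ^ 2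
      = ∑ k : Fin n, ∑ i : Fin m, ∑ j : Fin m, ‖X (k, i) (k, j)‖ ^ 2 := by
        rw [Finset.sum_comm (s := (Finset.univ : Finset (Fin n)))]
        refine Finset.sum_congr rfl fun i _ => ?_
        exact Finset.sum_comm
    _ ≤ _ := by
        refine Finset.sum_le_sum fun k _ => Finset.sum_le_sum fun i _ => ?_
        exact Finset.single_le_sum (f := fun k' => ∑ j : Fin m, ‖X (k, i) (k', j)‖ ^ 2)
          (fun _ _ => Finset.sum_nonneg fun _ _ => sq_nonneg _) (Finset.mem_univ k)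

/-- partial isometries are contractions -/
theorem hs_pi_mul {n m : ℕ} (v : Matrix (Fin n) (Fin n) ℂ) (h1 : (vᴴ * v) * (vᴴ * v) = vᴴ * v)
    (D : Matrix (Fin n × Fin m) (Fin n × Fin m) ℂ) :
    hs ((v ⊗ₖ (1 : Matrix (Fin m) (Fin m) ℂ)) * D) ≤ hs D := by
  set π : Matrix (Fin n × Fin m) (Fin n × Fin m) ℂ := (vᴴ * v) ⊗ₖ (1 : Matrix (Fin m) (Fin m) ℂ)
    with hπ
  have hpr : IsPr π := by
    constructor
    · rw [hπ, conjTranspose_kronecker, conjTranspose_one, conjTranspose_mul,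
        conjTranspose_conjTranspose]
    · rw [hπ, ← mul_kronecker_mul, h1, Matrix.one_mul]
  have h2 : hs ((v ⊗ₖ (1 : Matrix (Fin m) (Fin m) ℂ)) * D) = hs (π * D) := by
    rw [hs_eq, hs_eq, conjTranspose_mul, conjTranspose_mul, hpr.1, Matrix.mul_assoc,
      Matrix.mul_assoc, ← Matrix.mul_assoc π π, hpr.2, ← Matrix.mul_assoc _ _ D,
      conjTranspose_kronecker, conjTranspose_one, ← mul_kronecker_mul, Matrix.one_mul]
  rw [h2]
  exact hs_pr_mul_le_self hpr D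

section

variable {H K : Type} [NormedAddCommGroup H] [InnerProductSpace ℂ H] [CompleteSpace H]
  [NormedAddCommGroup K] [InnerProductSpace ℂ K] [CompleteSpace K]
  {A : VonNeumannAlgebra H} {ξ : H} {N : VonNeumannAlgebra K} {ζ : K}

/-- traces against an asymptotic representative -/
theorem trace_e_lim (R : AsRep A ξ) {x y : Op H} (hx : x ∈ A) (hy : y ∈ A)
    (e : ∀ i, Matrix (Fin (R.n i)) (Fin (R.n i)) ℂ)
    (he : Eqv R.F (fun i => (R.n i : ℝ)) e (fun i => R.Ψ i x)) :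
    Tendsto (fun i => Matrix.trace ((e i)ᴴ * R.Ψ i y) / (R.n i : ℂ)) R.F
      (𝓝 (tr ξ (star x * y))) := by
  obtain ⟨C, hC0, hC⟩ := R.hs_le hy
  have h1 := R.inner_lim hx hy
  have h2 : Tendsto (fun i => Matrix.trace ((e i)ᴴ * R.Ψ i y) / (R.n i : ℂ) -
      Matrix.trace ((R.Ψ i x)ᴴ * R.Ψ i y) / (R.n i : ℂ)) R.F (𝓝 0) := by
    have h5 : Tendsto (fun i => √(hs (e i - R.Ψ i x) / R.n i) * √C) R.F (𝓝 0) := by
      have := ((Real.continuous_sqrt.tendsto 0).comp he).mul_const (√C)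
      rw [Real.sqrt_zero, zero_mul] at this
      exact this
    refine squeeze_zero_norm (fun i => ?_) h5
    have hn := R.cpos i
    rw [← sub_div, norm_div, ← Matrix.trace_sub, Complex.norm_natCast, ← Matrix.sub_mul,
      ← conjTranspose_sub, div_le_iff₀ hn]
    refine (norm_trace_le _ _).trans ?_
    have h6 : √(hs (R.Ψ i y)) ≤ √C * √(R.n i : ℝ) := by
      rw [← Real.sqrt_mul hC0]
      exact Real.sqrt_le_sqrt (hC i)
    refine (mul_le_mul_of_nonneg_left h6 (Real.sqrt_nonneg _)).trans (le_of_eq ?_)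
    rw [Real.sqrt_div (hs_nonneg _)]
    have h7 : √(R.n i : ℝ) * √(R.n i : ℝ) = R.n i := Real.mul_self_sqrt (Nat.cast_nonneg _)
    have h8 : √(R.n i : ℝ) ≠ 0 := (Real.sqrt_pos.2 hn).ne'
    field_simp
    rw [sq, h7]
  have h3 := h1.add h2
  simpa using h3

theorem ptr_lim (R₁ : AsRep A ξ) (R₂ : AsRep N ζ) {x : Op H} (hx : x ∈ A)
    (e : ∀ i, Matrix (Fin (R₁.n i)) (Fin (R₁.n i)) ℂ)
    (he : Eqv R₁.F (fun i => (R₁.n i : ℝ)) e (fun i => R₁.Ψ i x))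
    (hpi : ∀ i, ((e i) * (e i)ᴴ) * ((e i) * (e i)ᴴ) = (e i) * (e i)ᴴ)
    {r : ℕ} (α : Fin r → Op H) (β : Fin r → Op K) (hα : ∀ s, α s ∈ A) (hβ : ∀ s, β s ∈ N)
    (X : ∀ p : R₁.I × R₂.I,
      Matrix (Fin (R₁.n p.1) × Fin (R₂.n p.2)) (Fin (R₁.n p.1) × Fin (R₂.n p.2)) ℂ)
    (hX : Tendsto (fun p => hs (X p - tm R₁ R₂ α β p) / ((R₁.n p.1 : ℝ) * R₂.n p.2))
      (R₁.F ×ˢ R₂.F) (𝓝 0)) :
    Tendsto (fun p => hs (ptr (((e p.1)ᴴ ⊗ₖ (1 : Matrix (Fin (R₂.n p.2)) (Fin (R₂.n p.2)) ℂ)) *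
      X p)) / ((R₁.n p.1 : ℝ) ^ 2 * R₂.n p.2)) (R₁.F ×ˢ R₂.F)
      (𝓝 (‖(∑ s, tr ξ (star x * α s) • β s) ζ‖ ^ 2)) := by
  set F := R₁.F ×ˢ R₂.F with hF
  have c1 : ∀ p : R₁.I × R₂.I, (0 : ℝ) < R₁.n p.1 := fun p => R₁.cpos p.1
  have c2 : ∀ p : R₁.I × R₂.I, (0 : ℝ) < R₂.n p.2 := fun p => R₂.cpos p.2
  -- (i)
  have h1 : Eqv F (fun p : R₁.I × R₂.I => (R₂.n p.2 : ℝ))
      (fun p => ((R₁.n p.1 : ℂ)⁻¹) • ptr (((e p.1)ᴴ ⊗ₖ (1 : Matrix (Fin (R₂.n p.2))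
        (Fin (R₂.n p.2)) ℂ)) * X p))
      (fun p => ((R₁.n p.1 : ℂ)⁻¹) • ptr (((e p.1)ᴴ ⊗ₖ (1 : Matrix (Fin (R₂.n p.2))
        (Fin (R₂.n p.2)) ℂ)) * tm R₁ R₂ α β p)) := by
    refine Eqv.of_le _ hX c2 fun p => ?_
    rw [← smul_sub, ← ptr_sub, ← Matrix.mul_sub, hs_smul, norm_inv, Complex.norm_natCast]
    have h2 := hs_ptr (((e p.1)ᴴ ⊗ₖ (1 : Matrix (Fin (R₂.n p.2)) (Fin (R₂.n p.2)) ℂ)) *
      (X p - tm R₁ R₂ α β p))
    have h3 := hs_pi_mul (m := R₂.n p.2) (e p.1)ᴴ (by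
      rw [conjTranspose_conjTranspose]; exact hpi p.1) (X p - tm R₁ R₂ α β p)
    have h4 := h2.trans (mul_le_mul_of_nonneg_left h3 (Nat.cast_nonneg _))
    rw [div_le_div_iff₀ (c2 p) (mul_pos (c1 p) (c2 p))]
    have h5 : ((R₁.n p.1 : ℝ)⁻¹) ^ 2 * hs (ptr (((e p.1)ᴴ ⊗ₖ (1 : Matrix (Fin (R₂.n p.2))
        (Fin (R₂.n p.2)) ℂ)) * (X p - tm R₁ R₂ α β p))) * ((R₁.n p.1 : ℝ)) ≤
        hs (X p - tm R₁ R₂ α β p) := by
      calc _ ≤ ((R₁.n p.1 : ℝ)⁻¹) ^ 2 * (R₁.n p.1 * hs (X p - tm R₁ R₂ α β p)) * R₁.n p.1 := by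
            refine mul_le_mul_of_nonneg_right ?_ (c1 p).le
            exact mul_le_mul_of_nonneg_left h4 (by positivity)
        _ = _ := by
            have := (c1 p).ne'
            field_simp
    nlinarith [c2 p]
  -- (ii)
  have h2 : ∀ p : R₁.I × R₂.I, ((R₁.n p.1 : ℂ)⁻¹) • ptr (((e p.1)ᴴ ⊗ₖ (1 : Matrix (Fin (R₂.n p.2))
        (Fin (R₂.n p.2)) ℂ)) * tm R₁ R₂ α β p) =
      ∑ s, (Matrix.trace ((e p.1)ᴴ * R₁.Ψ p.1 (α s)) / (R₁.n p.1 : ℂ)) • R₂.Ψ p.2 (β s) := by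
    intro p
    unfold tm
    rw [Matrix.mul_sum, ptr_sum, Finset.smul_sum]
    refine Finset.sum_congr rfl fun s _ => ?_
    rw [← mul_kronecker_mul, ptr_kron, Matrix.one_mul, smul_smul, div_eq_inv_mul]
  -- (iii)
  have h3 : Eqv F (fun p : R₁.I × R₂.I => (R₂.n p.2 : ℝ))
      (fun p => ∑ s, (Matrix.trace ((e p.1)ᴴ * R₁.Ψ p.1 (α s)) / (R₁.n p.1 : ℂ)) • R₂.Ψ p.2 (β s))
      (fun p => ∑ s, tr ξ (star x * α s) • R₂.Ψ p.2 (β s)) := by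
    refine Eqv.sum c2 Finset.univ fun s _ => ?_
    obtain ⟨C, hC0, hC⟩ := R₂.hs_le (hβ s)
    exact Eqv.coef c2 (fun p => hC p.2)
      ((trace_e_lim R₁ hx (hα s) e he).comp tendsto_fst)
  -- (iv)
  have h4 : Eqv F (fun p : R₁.I × R₂.I => (R₂.n p.2 : ℝ))
      (fun p => ∑ s, tr ξ (star x * α s) • R₂.Ψ p.2 (β s))
      (fun p => R₂.Ψ p.2 (∑ s, tr ξ (star x * α s) • β s)) := by
    have h5 := (R₂.sum Finset.univ (fun s => tr ξ (star x * α s)) β fun s _ => hβ s).symm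
    exact h5.comp tendsto_snd
  have hg : (∑ s, tr ξ (star x * α s) • β s) ∈ N :=
    sum_mem fun s _ => N.toStarSubalgebra.smul_mem (hβ s) _
  have h6 : Tendsto (fun p : R₁.I × R₂.I => hs (R₂.Ψ p.2 (∑ s, tr ξ (star x * α s) • β s)) /
      (R₂.n p.2 : ℝ)) F (𝓝 (‖(∑ s, tr ξ (star x * α s) • β s) ζ‖ ^ 2)) :=
    (R₂.hs_lim hg).comp tendsto_snd
  have h7 := ((h3.trans c2 h4).symm).lim c2 h6
  simp only [← h2] at h7
  have h8 := h1.symm.lim c2 h7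
  refine h8.congr fun p => ?_
  rw [hs_smul, norm_inv, Complex.norm_natCast]
  have := (c1 p).ne'
  have := (c2 p).ne'
  field_simp

end

end

end Pool.Agent.P8H72.RE
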