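import Pool.Agent.P8H72.RE.Stm
import Pool.Agent.N557.QW.Main1

/-!
# Generated von Neumann algebras; translations
-/

set_option autoImplicit false

open scoped Topology InnerProductSpace
open Filter

namespace Pool.Agent.P8H72.RE

open Pool.Agent.N557.QWX (Op tr IsTracial IsHom)
open Pool.Agent.N859.QX (QWEP)
open Pool.Agent.N557.QW (RF lam LG lam_mem star_lam)
open Pool.Agent.H494R3.GT (L2 dl vec_ext op_ext)

noncomputable section

section general

variable {H : Type} [NormedAddCommGroup H] [InnerProductSpace ℂ H] [CompleteSpace H]

/-- The double commutant of a set of operators. -/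
def vn (X : Set (Op H)) : VonNeumannAlgebra H where
  toStarSubalgebra := StarSubalgebra.centralizer ℂ (Set.centralizer (X ∪ star X))
  centralizer_centralizer' := by
    change Set.centralizer (Set.centralizer (Set.centralizer _)) = Set.centralizer _
    exact Set.centralizer_centralizer_centralizer _

lemma star_cent (X : Set (Op H)) :
    star (Set.centralizer (X ∪ star X)) = Set.centralizer (X ∪ star X) := by
  ext y
  rw [Set.mem_star]
  constructor
  · intro h m hm
    have h1 := h (star m) (by
      rcases hm with hm | hm
      · exact Or.inr (by rwa [Set.mem_star, star_star])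
      · exact Or.inl (by rwa [Set.mem_star] at hm))
    have h2 := congrArg star h1
    simp only [star_mul, star_star] at h2
    exact h2.symm
  · intro h m hm
    have h1 := h (star m) (by
      rcases hm with hm | hm
      · exact Or.inr (by rwa [Set.mem_star, star_star])
      · exact Or.inl (by rwa [Set.mem_star] at hm))
    have h2 := congrArg star h1
    simp only [star_mul, star_star] at h2
    exact h2.symm

lemma mem_vn {X : Set (Op H)} {x : Op H} :
    x ∈ vn X ↔ x ∈ Set.centralizer (Set.centralizer (X ∪ star X)) := by
  change x ∈ Set.centralizer (Set.centralizer (X ∪ star X) ∪ star (Set.centralizer (X ∪ star X))) ↔ _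
  rw [star_cent, Set.union_self]

/-- Every set of operators generates a von Neumann algebra. -/
theorem generated_vn (X : Set (Op H)) : GeneratedBy (vn X) X where
  mem x hx := by
    rw [mem_vn]
    exact Set.subset_centralizer_centralizer (Or.inl hx)
  least M' h x hx := by
    rw [mem_vn] at hx
    have h1 : X ∪ star X ⊆ (M' : Set (Op H)) := by
      rintro y (hy | hy)
      · exact h y hy
      · have h2 := h _ (Set.mem_star.1 hy)
        have h3 := star_mem (S := VonNeumannAlgebra H) (s := M') h2
        rwa [star_star] at h3
    have h2 : Set.centralizer (Set.centralizer (M' : Set (Op H))) = M' :=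
      M'.centralizer_centralizer
    change x ∈ (M' : Set (Op H))
    rw [← h2]
    exact Set.centralizer_subset (Set.centralizer_subset h1) hx

theorem GeneratedBy.unique {X : Set (Op H)} {M N : VonNeumannAlgebra H} (hM : GeneratedBy M X)
    (hN : GeneratedBy N X) : M = N :=
  le_antisymm (hM.least N hN.mem) (hN.least M hM.mem)

end general

section groups

variable {G : Type} [Group G]

/-- The von Neumann algebra generated by the left translations is `LG`. -/
theorem generated_LG : GeneratedBy (LG G) (Set.range (lam : G → Op (L2 G))) where
  mem := by
    rintro _ ⟨g, rfl⟩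
    exact lam_mem g
  least M' h x hx := by
    have h1 : x ∈ Set.centralizer (Set.centralizer (Set.range (lam : G → Op (L2 G)))) := by
      rw [(Pool.Agent.N169.QWP.t_com G).1]
      exact hx
    have h2 : Set.centralizer (Set.centralizer (M' : Set (Op (L2 G)))) = M' :=
      M'.centralizer_centralizer
    change x ∈ (M' : Set (Op (L2 G)))
    rw [← h2]
    refine Set.centralizer_subset (Set.centralizer_subset ?_) h1
    rintro _ ⟨g, rfl⟩
    exact h _ ⟨g, rfl⟩

end groups

end

end Pool.Agent.P8H72.RE
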